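import Mathlib

/-! Centrally symmetric simplicial polytopes and centrally symmetric 4-cycles. -/

namespace Pool.Agent.CsPoly

/-- `P` is a centrally symmetric simplicial polytope of dimension `d` in `ℝ^d`: the convex hull
of a finite set, with nonempty interior, symmetric about the origin, and every proper face `F`
is a simplex, that is, the vertices of `P` in `F` are affinely independent. -/
structure IsCsSimplicialPolytope (d : ℕ) (P : Set (Fin d → ℝ)) : Prop where
  polytope : ∃ S : Finset (Fin d → ℝ), P = convexHull ℝ (S : Set (Fin d → ℝ))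
  full : (interior P).Nonempty
  symm : ∀ x ∈ P, -x ∈ P
  simplicial : ∀ F : Set (Fin d → ℝ), IsExposed ℝ P F → F ≠ P →
    AffineIndependent ℝ (fun v : (F ∩ P.extremePoints ℝ : Set (Fin d → ℝ)) => (v : Fin d → ℝ))

/-- `v` and `w` are distinct vertices of `P` and the segment between them is a face of `P`. -/
def IsEdge {d : ℕ} (P : Set (Fin d → ℝ)) (v w : Fin d → ℝ) : Prop :=
  v ∈ P.extremePoints ℝ ∧ w ∈ P.extremePoints ℝ ∧ v ≠ w ∧ IsExposed ℝ P (segment ℝ v w)

/-- The graph of `P` has a centrally symmetric 4-cycle `v, w, -v, -w`. -/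
def HasCsFourCycle {d : ℕ} (P : Set (Fin d → ℝ)) : Prop :=
  ∃ v w : Fin d → ℝ, w ≠ v ∧ w ≠ -v ∧
    IsEdge P v w ∧ IsEdge P w (-v) ∧ IsEdge P (-v) (-w) ∧ IsEdge P (-w) v

/-- The numbers of vertices of the centrally symmetric simplicial `d`-polytopes without centrally
symmetric 4-cycle. -/
def vertexNumbers (d : ℕ) : Set ℕ :=
  {n | ∃ P : Set (Fin d → ℝ), IsCsSimplicialPolytope d P ∧ ¬ HasCsFourCycle P ∧
    (P.extremePoints ℝ).ncard = n}

/-- The least number `m(d)` of vertices of a centrally symmetric simplicial `d`-polytope without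
centrally symmetric 4-cycle. -/
noncomputable def minVertices (d : ℕ) : ℕ := sInf (vertexNumbers d)

end Pool.Agent.CsPoly
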