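import Mathlib

/-! Compatible pairs of polyhedral norms, given by their finite sets of functionals. -/

namespace Pool.Agent.CsPoly

open Finset

/-- `g` maximises the linear form `x` over the finite set `G`. -/
def Top {ι : Type*} [Fintype ι] (G : Finset (ι → ℝ)) (g x : ι → ℝ) : Prop :=
  ∀ g' ∈ G, g' ⬝ᵥ x ≤ g ⬝ᵥ x

/-- Two symmetric spanning finite sets of functionals which are compatible. -/
structure IsPair {m : ℕ} (G H : Finset (Fin m → ℝ)) : Prop where
  symG : ∀ g ∈ G, -g ∈ G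
  symH : ∀ h ∈ H, -h ∈ H
  neG : G.Nonempty
  neH : H.Nonempty
  posG : ∀ x : Fin m → ℝ, x ≠ 0 → ∃ g ∈ G, 0 < g ⬝ᵥ x
  posH : ∀ x : Fin m → ℝ, x ≠ 0 → ∃ h ∈ H, 0 < h ⬝ᵥ x
  compat : ∀ g ∈ G, ∀ h ∈ H, ∀ x y, Top G g x → Top G g y → Top H h x → Top H h (-y) →
    x = 0 ∨ y = 0

theorem Top.neg {ι : Type*} [Fintype ι] {G : Finset (ι → ℝ)} (hG : ∀ g ∈ G, -g ∈ G)
    {g x : ι → ℝ}
    (h : Top G g x) : Top G (-g) (-x) := by
  intro g' hg'
  have := h (-g') (hG g' hg')
  simpa [neg_dotProduct, dotProduct_neg] using this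

theorem IsPair.swap {m : ℕ} {G H : Finset (Fin m → ℝ)} (h : IsPair G H) : IsPair H G where
  symG := h.symH
  symH := h.symG
  neG := h.neH
  neH := h.neG
  posG := h.posH
  posH := h.posG
  compat := by
    intro a ha b hb x y h1 h2 h3 h4
    rcases h.compat b hb a ha x (-y) h3 h4 h1 (by simpa using h2) with h5 | h5
    · exact Or.inl h5
    · exact Or.inr (by simpa using h5)

/-- There is a compatible pair with at most `A` and `B` functionals in dimension `m`. -/
def HasPair (m A B : ℕ) : Prop :=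
  ∃ G H : Finset (Fin m → ℝ), IsPair G H ∧ G.card ≤ A ∧ H.card ≤ B

theorem HasPair.swap {m A B : ℕ} (h : HasPair m A B) : HasPair m B A := by
  obtain ⟨G, H, h1, h2, h3⟩ := h
  exact ⟨H, G, h1.swap, h3, h2⟩

theorem append_dot {m n : ℕ} (g : Fin m → ℝ) (g' : Fin n → ℝ) (x : Fin (m + n) → ℝ) :
    Fin.append g g' ⬝ᵥ x =
      g ⬝ᵥ (fun i => x (Fin.castAdd n i)) + g' ⬝ᵥ (fun i => x (Fin.natAdd m i)) := by
  simp [dotProduct, Fin.sum_univ_add]

theorem append_neg {m n : ℕ} (g : Fin m → ℝ) (g' : Fin n → ℝ) :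
    -(Fin.append g g') = Fin.append (-g) (-g') := by
  ext i
  refine Fin.addCases (fun i => ?_) (fun i => ?_) i <;> simp

theorem eq_zero_of_parts {m n : ℕ} {x : Fin (m + n) → ℝ}
    (h1 : (fun i => x (Fin.castAdd n i)) = 0) (h2 : (fun i => x (Fin.natAdd m i)) = 0) :
    x = 0 := by
  ext i
  refine Fin.addCases (fun i => ?_) (fun i => ?_) i
  · exact congrFun h1 i
  · exact congrFun h2 i

theorem HasPair.add {m n A B C D : ℕ} (h : HasPair m A B) (h' : HasPair n C D) :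
    HasPair (m + n) (A + C) (B * D) := by
  classical
  obtain ⟨G1, H1, p1, a1, b1⟩ := h
  obtain ⟨G2, H2, p2, a2, b2⟩ := h'
  let G : Finset (Fin (m + n) → ℝ) :=
    G1.image (fun g => Fin.append g 0) ∪ G2.image (fun g => Fin.append 0 g)
  let H : Finset (Fin (m + n) → ℝ) := (H1 ×ˢ H2).image (fun p => Fin.append p.1 p.2)
  have memG : ∀ g, g ∈ G ↔ (∃ g1 ∈ G1, Fin.append g1 0 = g) ∨ (∃ g2 ∈ G2, Fin.append 0 g2 = g) := by
    intro g; simp [G]
  have memH : ∀ g, g ∈ H ↔ ∃ g1 ∈ H1, ∃ g2 ∈ H2, Fin.append g1 g2 = g := by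
    intro g
    simp only [H, mem_image, mem_product, Prod.exists]
    constructor
    · rintro ⟨a, b, ⟨h1, h2⟩, h3⟩; exact ⟨a, h1, b, h2, h3⟩
    · rintro ⟨a, h1, b, h2, h3⟩; exact ⟨a, b, ⟨h1, h2⟩, h3⟩
  have nn : ∀ {k : ℕ} (K : Finset (Fin k → ℝ)), K.Nonempty → (∀ g ∈ K, -g ∈ K) →
      ∀ x : Fin k → ℝ, ∃ g ∈ K, 0 ≤ g ⬝ᵥ x := by
    intro k K hne hs x
    obtain ⟨g, hg⟩ := hne
    rcases le_total 0 (g ⬝ᵥ x) with h | h
    · exact ⟨g, hg, h⟩
    · exact ⟨-g, hs g hg, by rw [neg_dotProduct]; linarith⟩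
  refine ⟨G, H, ⟨?_, ?_, ?_, ?_, ?_, ?_, ?_⟩, ?_, ?_⟩
  · intro g hg
    rcases (memG g).1 hg with ⟨g1, h1, rfl⟩ | ⟨g1, h1, rfl⟩
    · exact (memG _).2 (Or.inl ⟨-g1, p1.symG g1 h1, by rw [append_neg]; simp⟩)
    · exact (memG _).2 (Or.inr ⟨-g1, p2.symG g1 h1, by rw [append_neg]; simp⟩)
  · intro g hg
    obtain ⟨g1, h1, g2, h2, rfl⟩ := (memH g).1 hg
    exact (memH _).2 ⟨-g1, p1.symH g1 h1, -g2, p2.symH g2 h2, by rw [append_neg]⟩
  · obtain ⟨g, hg⟩ := p1.neG
    exact ⟨_, (memG _).2 (Or.inl ⟨g, hg, rfl⟩)⟩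
  · obtain ⟨g, hg⟩ := p1.neH
    obtain ⟨g', hg'⟩ := p2.neH
    exact ⟨_, (memH _).2 ⟨g, hg, g', hg', rfl⟩⟩
  · intro x hx
    by_cases h1 : (fun i => x (Fin.castAdd n i)) = 0
    · have h2 : (fun i => x (Fin.natAdd m i)) ≠ 0 := fun h => hx (eq_zero_of_parts h1 h)
      obtain ⟨g, hg, h3⟩ := p2.posG _ h2
      exact ⟨_, (memG _).2 (Or.inr ⟨g, hg, rfl⟩), by rw [append_dot]; simpa using h3⟩
    · obtain ⟨g, hg, h3⟩ := p1.posG _ h1
      exact ⟨_, (memG _).2 (Or.inl ⟨g, hg, rfl⟩), by rw [append_dot]; simpa using h3⟩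
  · intro x hx
    by_cases h1 : (fun i => x (Fin.castAdd n i)) = 0
    · have h2 : (fun i => x (Fin.natAdd m i)) ≠ 0 := fun h => hx (eq_zero_of_parts h1 h)
      obtain ⟨g, hg, h3⟩ := p2.posH _ h2
      obtain ⟨g', hg', h4⟩ := nn H1 p1.neH p1.symH (fun i => x (Fin.castAdd n i))
      exact ⟨_, (memH _).2 ⟨g', hg', g, hg, rfl⟩, by rw [append_dot]; linarith⟩
    · obtain ⟨g, hg, h3⟩ := p1.posH _ h1
      obtain ⟨g', hg', h4⟩ := nn H2 p2.neH p2.symH (fun i => x (Fin.natAdd m i))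
      exact ⟨_, (memH _).2 ⟨g, hg, g', hg', rfl⟩, by rw [append_dot]; linarith⟩
  · intro g hg h hh x y hx hy kx ky
    obtain ⟨h1, m1, h2, m2, rfl⟩ := (memH h).1 hh
    have K1 : ∀ z : Fin (m + n) → ℝ, Top H (Fin.append h1 h2) z →
        Top H1 h1 (fun i => z (Fin.castAdd n i)) := by
      intro z hz h' hh'
      have := hz _ ((memH _).2 ⟨h', hh', h2, m2, rfl⟩)
      rw [append_dot, append_dot] at this
      linarith
    have K2 : ∀ z : Fin (m + n) → ℝ, Top H (Fin.append h1 h2) z →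
        Top H2 h2 (fun i => z (Fin.natAdd m i)) := by
      intro z hz h' hh'
      have := hz _ ((memH _).2 ⟨h1, m1, h', hh', rfl⟩)
      rw [append_dot, append_dot] at this
      linarith
    rcases (memG g).1 hg with ⟨g1, l1, rfl⟩ | ⟨g2, l2, rfl⟩
    · have L1 : ∀ z : Fin (m + n) → ℝ, Top G (Fin.append g1 0) z →
          Top G1 g1 (fun i => z (Fin.castAdd n i)) := by
        intro z hz h' hh'
        have := hz _ ((memG _).2 (Or.inl ⟨h', hh', rfl⟩))
        rw [append_dot, append_dot] at this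
        linarith
      have L2 : ∀ z : Fin (m + n) → ℝ, Top G (Fin.append g1 0) z →
          (fun i => z (Fin.castAdd n i)) = 0 → z = 0 := by
        intro z hz h0
        refine eq_zero_of_parts h0 ?_
        by_contra hc
        obtain ⟨g', hg', h3⟩ := p2.posG _ hc
        have := hz _ ((memG _).2 (Or.inr ⟨g', hg', rfl⟩))
        rw [append_dot, append_dot, h0] at this
        simp at this
        linarith
      rcases p1.compat g1 l1 h1 m1 _ _ (L1 x hx) (L1 y hy) (K1 x kx) (K1 (-y) ky) with h5 | h5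
      · exact Or.inl (L2 x hx h5)
      · exact Or.inr (L2 y hy h5)
    · have L1 : ∀ z : Fin (m + n) → ℝ, Top G (Fin.append 0 g2) z →
          Top G2 g2 (fun i => z (Fin.natAdd m i)) := by
        intro z hz h' hh'
        have := hz _ ((memG _).2 (Or.inr ⟨h', hh', rfl⟩))
        rw [append_dot, append_dot] at this
        linarith
      have L2 : ∀ z : Fin (m + n) → ℝ, Top G (Fin.append 0 g2) z →
          (fun i => z (Fin.natAdd m i)) = 0 → z = 0 := by
        intro z hz h0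
        refine eq_zero_of_parts ?_ h0
        by_contra hc
        obtain ⟨g', hg', h3⟩ := p1.posG _ hc
        have := hz _ ((memG _).2 (Or.inl ⟨g', hg', rfl⟩))
        rw [append_dot, append_dot, h0] at this
        simp at this
        linarith
      rcases p2.compat g2 l2 h2 m2 _ _ (L1 x hx) (L1 y hy) (K2 x kx) (K2 (-y) ky) with h5 | h5
      · exact Or.inl (L2 x hx h5)
      · exact Or.inr (L2 y hy h5)
  · calc G.card ≤ (G1.image (fun g => Fin.append g (0 : Fin n → ℝ))).card +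
          (G2.image (fun g => Fin.append (0 : Fin m → ℝ) g)).card := card_union_le _ _
      _ ≤ G1.card + G2.card := Nat.add_le_add card_image_le card_image_le
      _ ≤ A + C := Nat.add_le_add a1 a2
  · calc H.card ≤ (H1 ×ˢ H2).card := card_image_le
      _ = H1.card * H2.card := card_product _ _
      _ ≤ B * D := Nat.mul_le_mul b1 b2

/-- The other way round: the first numbers are multiplied, the second added. -/
theorem HasPair.mul {m n A B C D : ℕ} (h : HasPair m A B) (h' : HasPair n C D) :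
    HasPair (m + n) (A * C) (B + D) := (h.swap.add h'.swap).swap

theorem HasPair.mono {m A B A' B' : ℕ} (h : HasPair m A B) (h1 : A ≤ A') (h2 : B ≤ B') :
    HasPair m A' B' := by
  obtain ⟨G, H, p, a, b⟩ := h
  exact ⟨G, H, p, a.trans h1, b.trans h2⟩

theorem hasPair_one : HasPair 1 2 2 := by
  classical
  let G : Finset (Fin 1 → ℝ) := {fun _ => 1, fun _ => -1}
  have memG : ∀ g, g ∈ G ↔ g = (fun _ => 1) ∨ g = (fun _ => -1) := by intro g; simp [G]
  have hpos : ∀ x : Fin 1 → ℝ, x ≠ 0 → ∃ g ∈ G, 0 < g ⬝ᵥ x := by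
    intro x hx
    have hx0 : x 0 ≠ 0 := fun h => hx (by ext i; fin_cases i; exact h)
    rcases lt_or_gt_of_ne hx0 with h | h
    · exact ⟨_, (memG _).2 (Or.inr rfl), by simp [dotProduct]; exact h⟩
    · exact ⟨_, (memG _).2 (Or.inl rfl), by simp [dotProduct]; exact h⟩
  have hsym : ∀ g ∈ G, -g ∈ G := by
    intro g hg
    rcases (memG g).1 hg with rfl | rfl
    · exact (memG _).2 (Or.inr (by ext; simp))
    · exact (memG _).2 (Or.inl (by ext; simp))
  have hcard : G.card ≤ 2 := card_le_two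
  have key : ∀ g ∈ G, ∀ x : Fin 1 → ℝ, Top G g x → g 0 * x 0 = |x 0| := by
    intro g hg x hx
    have h1 := hx _ ((memG _).2 (Or.inl rfl))
    have h2 := hx _ ((memG _).2 (Or.inr rfl))
    simp only [dotProduct, Finset.univ_unique, Fin.default_eq_zero, Fin.isValue,
      Finset.sum_singleton] at h1 h2
    rcases (memG g).1 hg with rfl | rfl
    · rw [abs_of_nonneg (by linarith)]; ring
    · rw [abs_of_nonpos (by linarith)]; ring
  refine ⟨G, G, ⟨hsym, hsym, ⟨_, (memG _).2 (Or.inl rfl)⟩, ⟨_, (memG _).2 (Or.inl rfl)⟩,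
    hpos, hpos, ?_⟩, hcard, hcard⟩
  intro g hg h hh x y h1 h2 h3 h4
  have e1 := key g hg x h1
  have e2 := key g hg y h2
  have e3 := key h hh x h3
  have e4 := key h hh (-y) h4
  simp only [Pi.neg_apply, abs_neg] at e4
  by_contra hc
  push Not at hc
  have hx0 : x 0 ≠ 0 := fun h => hc.1 (by ext i; fin_cases i; exact h)
  have hy0 : y 0 ≠ 0 := fun h => hc.2 (by ext i; fin_cases i; exact h)
  have px := abs_pos.2 hx0
  have py := abs_pos.2 hy0
  rcases (memG g).1 hg with rfl | rfl <;> rcases (memG h).1 hh with rfl | rfl <;> simp at e1 e2 e3 e4 <;> nlinarith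

/-- Restriction to fewer coordinates. -/
theorem HasPair.pred {m A B : ℕ} (h : HasPair (m + 1) A B) : HasPair m A B := by
  classical
  obtain ⟨G, H, p, a, b⟩ := h
  have dot : ∀ (g : Fin (m + 1) → ℝ) (x : Fin m → ℝ),
      g ⬝ᵥ (Fin.snoc x 0 : Fin (m + 1) → ℝ) = (fun i => g (Fin.castSucc i)) ⬝ᵥ x := by
    intro g x
    simp [dotProduct, Fin.sum_univ_castSucc]
  have ext0 : ∀ x : Fin m → ℝ, (Fin.snoc x 0 : Fin (m + 1) → ℝ) = 0 → x = 0 := by
    intro x hx
    ext i
    have := congrFun hx (Fin.castSucc i)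
    simpa using this
  have extneg : ∀ x : Fin m → ℝ, (Fin.snoc (-x) 0 : Fin (m + 1) → ℝ) =
      -(Fin.snoc x 0 : Fin (m + 1) → ℝ) := by
    intro x
    ext i
    refine Fin.lastCases ?_ (fun i => ?_) i <;> simp
  have top : ∀ (K : Finset (Fin (m + 1) → ℝ)) (g : Fin (m + 1) → ℝ) (x : Fin m → ℝ),
      Top (K.image (fun g i => g (Fin.castSucc i))) (fun i => g (Fin.castSucc i)) x →
      Top K g (Fin.snoc x 0) := by
    intro K g x h g' hg'
    rw [dot, dot]
    exact h _ (mem_image_of_mem _ hg')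
  refine ⟨G.image (fun g i => g (Fin.castSucc i)), H.image (fun g i => g (Fin.castSucc i)),
    ⟨?_, ?_, p.neG.image _, p.neH.image _, ?_, ?_, ?_⟩, card_image_le.trans a,
    card_image_le.trans b⟩
  · intro g hg
    obtain ⟨g', h', rfl⟩ := mem_image.1 hg
    exact mem_image.2 ⟨-g', p.symG g' h', rfl⟩
  · intro g hg
    obtain ⟨g', h', rfl⟩ := mem_image.1 hg
    exact mem_image.2 ⟨-g', p.symH g' h', rfl⟩
  · intro x hx
    obtain ⟨g, hg, h1⟩ := p.posG (Fin.snoc x 0) (fun h => hx (ext0 x h))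
    exact ⟨_, mem_image_of_mem _ hg, by rw [← dot]; exact h1⟩
  · intro x hx
    obtain ⟨g, hg, h1⟩ := p.posH (Fin.snoc x 0) (fun h => hx (ext0 x h))
    exact ⟨_, mem_image_of_mem _ hg, by rw [← dot]; exact h1⟩
  · intro g hg h hh x y h1 h2 h3 h4
    obtain ⟨g', hg', rfl⟩ := mem_image.1 hg
    obtain ⟨h', hh', rfl⟩ := mem_image.1 hh
    have e4 := top H h' (-y) h4
    rw [extneg] at e4
    rcases p.compat g' hg' h' hh' _ _ (top G g' x h1) (top G g' y h2) (top H h' x h3) e4 with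
      h5 | h5
    · exact Or.inl (ext0 x h5)
    · exact Or.inr (ext0 y h5)

theorem HasPair.le {m n A B : ℕ} (h : HasPair n A B) (hmn : m ≤ n) : HasPair m A B := by
  induction n, hmn using Nat.le_induction with
  | base => exact h
  | succ k _ ih => exact ih h.pred

end Pool.Agent.CsPoly
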