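import Mathlib
import Pool.Agent.CsPoly.Pair

/-! From a compatible pair to a symmetric point set without common neighbours of antipodes. -/

namespace Pool.Agent.CsPoly

open Finset

/-- A finite family `V` spanning the space such that `V k`, `V l` and `V k`, `-V l` never lie
both in common proper faces of the hull of the points `± V j`. -/
structure Good {K : Type*} {d : ℕ} (V : K → Fin d → ℝ) : Prop where
  span : ∀ x : Fin d → ℝ, x ≠ 0 → ∃ k, V k ⬝ᵥ x ≠ 0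
  ns : ∀ k l, ∀ x y : Fin d → ℝ, x ≠ 0 → y ≠ 0 →
    (∀ j, |V j ⬝ᵥ x| ≤ V k ⬝ᵥ x) → (∀ j, |V j ⬝ᵥ x| ≤ V l ⬝ᵥ x) →
    (∀ j, |V j ⬝ᵥ y| ≤ V k ⬝ᵥ y) → (∀ j, |V j ⬝ᵥ y| ≤ -(V l ⬝ᵥ y)) → False

/-- A finite symmetric spanning set of functionals whose norm is non-square: `u` and `v`, and
also `u` and `-v`, never both norm a nonzero vector. -/
structure NSet {ι : Type*} [Fintype ι] (R : Finset (ι → ℝ)) : Prop where
  sym : ∀ r ∈ R, -r ∈ R
  zero : (0 : ι → ℝ) ∉ R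
  pos : ∀ x : ι → ℝ, x ≠ 0 → ∃ r ∈ R, 0 < r ⬝ᵥ x
  ns : ∀ u ∈ R, ∀ v ∈ R, ∀ x y : ι → ℝ, x ≠ 0 → y ≠ 0 → Top R u x → Top R v x → Top R u y →
    Top R (-v) y → False

theorem exists_half {d : ℕ} : ∀ (n : ℕ) (S : Finset (Fin d → ℝ)), S.card ≤ n →
    (∀ v ∈ S, -v ∈ S) → (0 : Fin d → ℝ) ∉ S →
    ∃ K : Finset (Fin d → ℝ), K ⊆ S ∧ 2 * K.card ≤ S.card ∧ ∀ v ∈ S, v ∈ K ∨ -v ∈ K := by
  classical
  intro n
  induction n with
  | zero =>
    intro S hS _ _
    have : S = ∅ := card_eq_zero.1 (Nat.le_zero.1 hS)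
    subst this
    exact ⟨∅, by simp, by simp, by simp⟩
  | succ n ih =>
    intro S hS hsym h0
    by_cases hne : S = ∅
    · subst hne
      exact ⟨∅, by simp, by simp, by simp⟩
    obtain ⟨v, hv⟩ := nonempty_iff_ne_empty.2 hne
    have hv0 : v ≠ 0 := fun h => h0 (h ▸ hv)
    have hvn : -v ≠ v := by
      intro h
      apply hv0
      ext i
      have := congrFun h i
      simp only [Pi.neg_apply] at this
      have h2 : v i = 0 := by linarith
      simpa using h2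
    have hv' : -v ∈ S := hsym v hv
    let S' := (S.erase v).erase (-v)
    have hc : S'.card + 2 = S.card := by
      have h1 : (S.erase v).card + 1 = S.card := card_erase_add_one hv
      have h2 : ((S.erase v).erase (-v)).card + 1 = (S.erase v).card :=
        card_erase_add_one (mem_erase.2 ⟨hvn, hv'⟩)
      simp only [S']
      omega
    have memS' : ∀ w, w ∈ S' ↔ w ≠ -v ∧ w ≠ v ∧ w ∈ S := by
      intro w; simp [S', mem_erase]
    obtain ⟨K, k1, k2, k3⟩ := ih S' (by omega) (by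
      intro w hw
      obtain ⟨h1, h2, h3⟩ := (memS' w).1 hw
      refine (memS' _).2 ⟨fun h => h2 (neg_injective h), fun h => h1 ?_, hsym w h3⟩
      rw [← h, neg_neg]) (fun h => h0 ((memS' _).1 h).2.2)
    refine ⟨insert v K, ?_, ?_, ?_⟩
    · intro w hw
      rcases mem_insert.1 hw with rfl | h
      · exact hv
      · exact ((memS' w).1 (k1 h)).2.2
    · have : (insert v K).card ≤ K.card + 1 := card_insert_le _ _
      omega
    · intro w hw
      by_cases h1 : w = v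
      · exact Or.inl (mem_insert.2 (Or.inl h1))
      by_cases h2 : w = -v
      · exact Or.inr (mem_insert.2 (Or.inl (by rw [h2, neg_neg])))
      rcases k3 w ((memS' w).2 ⟨h2, h1, hw⟩) with h | h
      · exact Or.inl (mem_insert_of_mem h)
      · exact Or.inr (mem_insert_of_mem h)

theorem exists_top {d : ℕ} (G : Finset (Fin d → ℝ)) (h : G.Nonempty) (x : Fin d → ℝ) :
    ∃ g ∈ G, Top G g x := by
  obtain ⟨g, hg, h1⟩ := G.exists_max_image (fun g => g ⬝ᵥ x) h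
  exact ⟨g, hg, h1⟩

theorem NSet.exists_good {d : ℕ} {R : Finset (Fin d → ℝ)} (hR : NSet R) :
    ∃ K : Finset (Fin d → ℝ), 2 * K.card ≤ R.card ∧ Good (fun k : K => (k : Fin d → ℝ)) := by
  classical
  obtain ⟨K, k1, k2, k3⟩ := exists_half R.card R le_rfl hR.sym hR.zero
  refine ⟨K, k2, ?_, ?_⟩
  · intro x hx
    obtain ⟨r, hr, hpos⟩ := hR.pos x hx
    rcases k3 _ hr with h | h
    · exact ⟨⟨_, h⟩, hpos.ne'⟩
    · refine ⟨⟨_, h⟩, ?_⟩
      simp only [neg_dotProduct]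
      linarith
  · rintro ⟨k, hk⟩ ⟨l, hl⟩ x y hx hy a1 a2 a3 a4
    simp only at a1 a2 a3 a4
    have up : ∀ (z : Fin d → ℝ) (c : ℝ), (∀ j : K, |(j : Fin d → ℝ) ⬝ᵥ z| ≤ c) →
        ∀ v' ∈ R, v' ⬝ᵥ z ≤ c := by
      intro z c hz v' hv'
      rcases k3 v' hv' with h | h
      · exact (le_abs_self _).trans (hz ⟨v', h⟩)
      · have := hz ⟨-v', h⟩
        simp only [neg_dotProduct, abs_neg] at this
        exact (le_abs_self _).trans this
    refine hR.ns k (k1 hk) l (k1 hl) x y hx hy (up x _ a1) (up x _ a2) (up y _ a3) ?_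
    intro v' hv'
    rw [neg_dotProduct]
    exact up y _ a4 v' hv'

/-- A non-square set `S` compatible with a set `H` of functionals below it. -/
structure Triple {k : ℕ} (S H : Finset (Fin k → ℝ)) : Prop where
  nset : NSet S
  symH : ∀ h ∈ H, -h ∈ H
  neH : H.Nonempty
  compat : ∀ r ∈ S, ∀ h ∈ H, ∀ x y, Top S r x → Top S r y → Top H h x → Top H h (-y) →
    x = 0 ∨ y = 0
  dom : ∀ z : Fin k → ℝ, z ≠ 0 → ∀ h ∈ H, ∃ r ∈ S, h ⬝ᵥ z ≤ r ⬝ᵥ z

theorem HasPair.exists_triple {d A B : ℕ} (hp : HasPair d A B) :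
    ∃ S H : Finset (Fin d → ℝ), Triple S H ∧ 2 * S.card ≤ A * B ∧ H.card ≤ B := by
  classical
  obtain ⟨G, H, p, a, b⟩ := hp
  let P : Finset ((Fin d → ℝ) × (Fin d → ℝ)) :=
    (G ×ˢ H).filter (fun q => ∃ x : Fin d → ℝ, x ≠ 0 ∧ Top G q.1 x ∧ Top H q.2 x)
  have memP : ∀ g h, (g, h) ∈ P ↔ (g ∈ G ∧ h ∈ H) ∧ ∃ x : Fin d → ℝ, x ≠ 0 ∧ Top G g x ∧
      Top H h x := by
    intro g h; simp [P]
  have symP : ∀ g h, (g, h) ∈ P → (-g, -h) ∈ P := by
    intro g h hm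
    obtain ⟨⟨h1, h2⟩, x, hx, h3, h4⟩ := (memP g h).1 hm
    exact (memP _ _).2 ⟨⟨p.symG g h1, p.symH h h2⟩, -x, neg_ne_zero.2 hx, h3.neg p.symG,
      h4.neg p.symH⟩
  let S : Finset (Fin d → ℝ) := P.image (fun q => q.1 + q.2)
  have memS : ∀ v, v ∈ S ↔ ∃ g h, (g, h) ∈ P ∧ g + h = v := by
    intro v; simp [S]
  have symS : ∀ v ∈ S, -v ∈ S := by
    intro v hv
    obtain ⟨g, h, h1, rfl⟩ := (memS v).1 hv
    exact (memS _).2 ⟨-g, -h, symP g h h1, by rw [neg_add]⟩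
  have posTG : ∀ (g x : Fin d → ℝ), x ≠ 0 → Top G g x → 0 < g ⬝ᵥ x := by
    intro g x hx ht
    obtain ⟨g', hg', h1⟩ := p.posG x hx
    exact lt_of_lt_of_le h1 (ht g' hg')
  have posTH : ∀ (g x : Fin d → ℝ), x ≠ 0 → Top H g x → 0 < g ⬝ᵥ x := by
    intro g x hx ht
    obtain ⟨g', hg', h1⟩ := p.posH x hx
    exact lt_of_lt_of_le h1 (ht g' hg')
  have S0 : (0 : Fin d → ℝ) ∉ S := by
    intro h0
    obtain ⟨g, h, h1, h2⟩ := (memS 0).1 h0
    obtain ⟨-, x, hx, h3, h4⟩ := (memP g h).1 h1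
    have e : (g + h) ⬝ᵥ x = 0 := by rw [h2]; simp
    rw [add_dotProduct] at e
    have := posTG g x hx h3
    have := posTH h x hx h4
    linarith
  have cardP : 2 * P.card ≤ A * B := by
    have h1 : (P.image (fun q => (q.1, -q.2))).card = P.card := by
      apply card_image_of_injective
      intro q r hqr
      simp only [Prod.mk.injEq, neg_inj] at hqr
      exact Prod.ext hqr.1 hqr.2
    have h2 : Disjoint P (P.image (fun q => (q.1, -q.2))) := by
      rw [disjoint_left]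
      rintro ⟨g, h⟩ hq hq'
      obtain ⟨⟨g', h'⟩, h3, h4⟩ := mem_image.1 hq'
      simp only [Prod.mk.injEq] at h4
      obtain ⟨rfl, rfl⟩ := h4
      obtain ⟨⟨m1, m2⟩, x, hx, t1, t2⟩ := (memP _ _).1 h3
      obtain ⟨-, y, hy, s1, s2⟩ := (memP _ _).1 hq
      have s3 : Top H h' (-y) := by simpa using s2.neg p.symH
      rcases p.compat g' m1 h' m2 x y t1 s1 t2 s3 with h5 | h5
      · exact hx h5
      · exact hy h5
    have h3 : P ∪ P.image (fun q => (q.1, -q.2)) ⊆ G ×ˢ H := by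
      apply union_subset
      · exact filter_subset _ _
      · intro q hq
        obtain ⟨⟨g, h⟩, h4, rfl⟩ := mem_image.1 hq
        obtain ⟨⟨m1, m2⟩, -⟩ := (memP _ _).1 h4
        exact mem_product.2 ⟨m1, p.symH h m2⟩
    have h4 := card_le_card h3
    rw [card_union_of_disjoint h2, h1, card_product] at h4
    have h5 : G.card * H.card ≤ A * B := Nat.mul_le_mul a b
    omega
  have topS : ∀ v ∈ S, ∀ z : Fin d → ℝ, z ≠ 0 → (∀ v' ∈ S, v' ⬝ᵥ z ≤ v ⬝ᵥ z) →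
      ∀ g h, (g, h) ∈ P → g + h = v → Top G g z ∧ Top H h z := by
    intro v hv z hz hmax g h hm hgh
    obtain ⟨g0, hg0, t0⟩ := exists_top G p.neG z
    obtain ⟨h0, hh0, u0⟩ := exists_top H p.neH z
    have hm0 : (g0, h0) ∈ P := (memP _ _).2 ⟨⟨hg0, hh0⟩, z, hz, t0, u0⟩
    have h1 := hmax (g0 + h0) ((memS _).2 ⟨g0, h0, hm0, rfl⟩)
    rw [← hgh, add_dotProduct, add_dotProduct] at h1
    obtain ⟨⟨m1, m2⟩, -⟩ := (memP _ _).1 hm
    have h2 := t0 g m1
    have h3 := u0 h m2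
    constructor
    · intro g' hg'
      have := t0 g' hg'
      linarith
    · intro h' hh'
      have := u0 h' hh'
      linarith
  have big : ∀ x : Fin d → ℝ, x ≠ 0 → ∃ g h, g + h ∈ S ∧ Top G g x ∧ Top H h x ∧
      0 < g ⬝ᵥ x := by
    intro x hx
    obtain ⟨g0, hg0, t0⟩ := exists_top G p.neG x
    obtain ⟨h0, hh0, u0⟩ := exists_top H p.neH x
    have hm0 : (g0, h0) ∈ P := (memP _ _).2 ⟨⟨hg0, hh0⟩, x, hx, t0, u0⟩
    exact ⟨g0, h0, (memS _).2 ⟨g0, h0, hm0, rfl⟩, t0, u0, posTG g0 x hx t0⟩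
  have cardS : S.card ≤ P.card := card_image_le
  refine ⟨S, H, ⟨⟨symS, S0, ?_, ?_⟩, p.symH, p.neH, ?_, ?_⟩, by omega, b⟩
  · intro x hx
    obtain ⟨g, h, m, t, u, hpos⟩ := big x hx
    refine ⟨g + h, m, ?_⟩
    rw [add_dotProduct]
    have := posTH h x hx u
    linarith
  · intro k hk l hl x y hx hy a1 a2 a3 a4
    obtain ⟨g, h, m1, e1⟩ := (memS k).1 hk
    obtain ⟨g', h', m2, e2⟩ := (memS l).1 hl
    obtain ⟨t1, t2⟩ := topS k hk x hx a1 g h m1 e1
    obtain ⟨t3, t4⟩ := topS l hl x hx a2 g' h' m2 e2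
    obtain ⟨t5, t6⟩ := topS k hk y hy a3 g h m1 e1
    obtain ⟨t7, t8⟩ := topS (-l) (symS l hl) y hy a4 (-g') (-h') (symP _ _ m2)
      (by rw [← e2, neg_add])
    have t9 : Top H h' (-y) := by simpa using t8.neg p.symH
    obtain ⟨⟨n1, -⟩, -⟩ := (memP _ _).1 m1
    obtain ⟨⟨-, n2⟩, -⟩ := (memP _ _).1 m2
    rcases p.compat g n1 h' n2 x y t1 t5 t4 t9 with h5 | h5
    · exact hx h5
    · exact hy h5
  · intro r hr h hh x y a1 a2 a3 a4
    by_contra hc
    push Not at hc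
    obtain ⟨g, h', m1, e1⟩ := (memS r).1 hr
    obtain ⟨t1, -⟩ := topS r hr x hc.1 a1 g h' m1 e1
    obtain ⟨t2, -⟩ := topS r hr y hc.2 a2 g h' m1 e1
    obtain ⟨⟨n1, -⟩, -⟩ := (memP _ _).1 m1
    rcases p.compat g n1 h hh x y t1 t2 a3 a4 with h5 | h5
    · exact hc.1 h5
    · exact hc.2 h5
  · intro z hz h hh
    obtain ⟨g, h', m, t, u, hpos⟩ := big z hz
    refine ⟨g + h', m, ?_⟩
    rw [add_dotProduct]
    have := u h hh
    linarith

end Pool.Agent.CsPoly
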