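import Mathlib
import Pool.Agent.CsPoly.Half

/-! Perturbing a finite family to general position with respect to all choices of signs. -/

namespace Pool.Agent.CsPoly

open Finset MeasureTheory Module

/-- The sign `1` or `-1` coded by a truth value. -/
def sg (b : Bool) : ℝ := if b then 1 else -1

theorem sg_true : sg true = 1 := rfl
theorem sg_false : sg false = -1 := rfl

theorem sg_not (b : Bool) : sg (!b) = -sg b := by cases b <;> simp [sg]

theorem sg_mul_self (b : Bool) : sg b * sg b = 1 := by cases b <;> simp [sg]

/-- For every choice of signs at most `d + 1` of the points are affinely independent, as long as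
the indices lie in `J`. -/
def GenPosOn {K : Type*} {d : ℕ} (J : Finset K) (V : K → Fin d → ℝ) : Prop :=
  ∀ I : Finset K, I ⊆ J → ∀ σ : K → Bool, I.card ≤ d + 1 →
    AffineIndependent ℝ (fun k : I => sg (σ k) • V k)

theorem span_ne_top {K : Type*} {d : ℕ} (I : Finset K) (p : I → Fin d → ℝ) (h : I.card ≤ d) :
    affineSpan ℝ (Set.range p) ≠ ⊤ := by
  intro htop
  rcases Nat.eq_zero_or_pos I.card with h0 | h0
  · have : I = ∅ := card_eq_zero.1 h0
    subst this
    have hr : Set.range p = ∅ := by
      rw [Set.range_eq_empty_iff]
      exact ⟨fun x => absurd x.2 (notMem_empty _)⟩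
    rw [hr, AffineSubspace.span_empty] at htop
    exact AffineSubspace.bot_ne_top ℝ (Fin d → ℝ) (Fin d → ℝ) htop
  · obtain ⟨n, hn⟩ : ∃ n, I.card = n + 1 := ⟨I.card - 1, by omega⟩
    have h1 : finrank ℝ (vectorSpan ℝ (Set.range p)) ≤ n :=
      finrank_vectorSpan_range_le ℝ p (by rw [Fintype.card_coe, hn])
    have h2 : vectorSpan ℝ (Set.range p) = ⊤ := by
      rw [← direction_affineSpan, htop, AffineSubspace.direction_top]
    rw [h2, finrank_top] at h1
    simp at h1
    omega

theorem neg_mem_span {d : ℕ} {ι : Type*} (p : ι → Fin d → ℝ) (z : Fin d → ℝ)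
    (h : -z ∈ affineSpan ℝ (Set.range p)) :
    z ∈ affineSpan ℝ (Set.range (fun k => -p k)) := by
  let f : (Fin d → ℝ) →ᵃ[ℝ] (Fin d → ℝ) := (-LinearMap.id : (Fin d → ℝ) →ₗ[ℝ] (Fin d → ℝ)).toAffineMap
  have hf : ∀ x, f x = -x := fun x => by simp [f]
  have h1 := AffineSubspace.mem_map_of_mem f h
  rw [AffineSubspace.map_span, hf, neg_neg, ← Set.range_comp] at h1
  have h2 : (⇑f ∘ p) = (fun k => -p k) := by
    funext k
    simp [hf]
  rwa [h2] at h1

theorem exists_genPosOn {K : Type*} [Finite K] {d : ℕ} (V0 : K → Fin d → ℝ) {δ : ℝ}
    (hδ : 0 < δ) (J : Finset K) :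
    ∃ V : K → Fin d → ℝ, (∀ k, dist (V k) (V0 k) < δ) ∧ GenPosOn J V := by
  classical
  have := Fintype.ofFinite K
  induction J using Finset.induction_on with
  | empty =>
    refine ⟨V0, fun k => by simpa using hδ, ?_⟩
    intro I hI σ _
    have : I = ∅ := subset_empty.1 hI
    subst this
    have : IsEmpty (∅ : Finset K) := ⟨fun x => absurd x.2 (notMem_empty _)⟩
    exact affineIndependent_of_subsingleton ℝ _
  | insert k0 J hk0 ih =>
    obtain ⟨V, hV, hgp⟩ := ih
    let A : Finset K × (K → Bool) → Set (Fin d → ℝ) := fun q =>
      if q.1.card ≤ d then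
        (affineSpan ℝ (Set.range (fun k : q.1 => sg (q.2 k) • V k)) : Set (Fin d → ℝ)) else ∅
    have hA : ∀ q, volume (A q) = 0 := by
      intro q
      by_cases h : q.1.card ≤ d
      · simp only [A, if_pos h]
        exact Measure.addHaar_affineSubspace _ _ (span_ne_top q.1 _ h)
      · simp only [A, if_neg h, measure_empty]
    have hU : volume (⋃ q, A q) = 0 := measure_iUnion_null hA
    obtain ⟨z, hz, hzA⟩ : ∃ z ∈ Metric.ball (V0 k0) δ, z ∉ ⋃ q, A q := by
      by_contra hc
      push Not at hc
      have h1 : Metric.ball (V0 k0) δ ⊆ ⋃ q, A q := fun z hz => hc z hz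
      have h2 := measure_mono_null h1 hU
      exact (Metric.measure_ball_pos volume (V0 k0) hδ).ne' h2
    have hzA' : ∀ (I : Finset K) (σ : K → Bool), I.card ≤ d →
        z ∉ affineSpan ℝ (Set.range (fun k : I => sg (σ k) • V k)) := by
      intro I σ hI hz'
      apply hzA
      refine Set.mem_iUnion.2 ⟨(I, σ), ?_⟩
      simp only [A, if_pos hI]
      exact hz'
    refine ⟨Function.update V k0 z, ?_, ?_⟩
    · intro k
      by_cases hk : k = k0
      · subst hk
        simpa using hz
      · simpa [Function.update_of_ne hk] using hV k
    · intro I hI σ hcard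
      by_cases hk : k0 ∈ I
      · let i : I := ⟨k0, hk⟩
        have hI0 : I.erase k0 ⊆ J := by
          intro k hk'
          rcases mem_insert.1 (hI (mem_of_mem_erase hk')) with h | h
          · exact absurd h (ne_of_mem_erase hk')
          · exact h
        have hc0 : (I.erase k0).card ≤ d := by
          rw [card_erase_of_mem hk]; omega
        apply AffineIndependent.affineIndependent_of_notMem_span (i := i)
        · have h1 := hgp (I.erase k0) hI0 σ (by omega)
          let e : { y : I // y ≠ i } ↪ (I.erase k0 : Finset K) :=
            ⟨fun y => ⟨y.1.1, mem_erase.2 ⟨fun h => y.2 (Subtype.ext h), y.1.2⟩⟩, by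
              intro a b hab
              simp only [Subtype.mk.injEq] at hab
              exact Subtype.ext (Subtype.ext hab)⟩
          have h2 := h1.comp_embedding e
          have h3 : (fun x : { y : I // y ≠ i } =>
              (sg (σ x.1) • Function.update V k0 z x.1 : Fin d → ℝ)) =
              (fun k : (I.erase k0 : Finset K) => sg (σ k) • V k) ∘ e := by
            funext x
            have hx : (x.1.1 : K) ≠ k0 := fun h => x.2 (Subtype.ext h)
            simp [Function.comp, e, Function.update_of_ne hx]
          have h4 : AffineIndependent ℝ (fun x : { y : I // y ≠ i } =>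
              (sg (σ x.1) • Function.update V k0 z x.1 : Fin d → ℝ)) := by
            rw [h3]; exact h2
          exact h4
        · have himg : (fun k : I => sg (σ k) • Function.update V k0 z k) '' { x | x ≠ i } =
              Set.range (fun k : (I.erase k0 : Finset K) => sg (σ k) • V k) := by
            ext w
            constructor
            · rintro ⟨x, hx, rfl⟩
              have hx' : (x.1 : K) ≠ k0 := fun h => hx (Subtype.ext h)
              refine ⟨⟨x.1, mem_erase.2 ⟨hx', x.2⟩⟩, ?_⟩
              simp [Function.update_of_ne hx']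
            · rintro ⟨x, rfl⟩
              have hx' : (x.1 : K) ≠ k0 := ne_of_mem_erase x.2
              refine ⟨⟨x.1, mem_of_mem_erase x.2⟩, fun h => hx' (congrArg Subtype.val h), ?_⟩
              simp [Function.update_of_ne hx']
          rw [himg]
          have hi : (sg (σ i) • Function.update V k0 z i : Fin d → ℝ) = sg (σ k0) • z := by
            simp [i]
          show (sg (σ i) • Function.update V k0 z i : Fin d → ℝ) ∉ _
          rw [hi]
          intro hmem
          cases hs : σ k0
          · rw [hs, sg_false, neg_smul, one_smul] at hmem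
            have h3 := neg_mem_span _ z hmem
            have h4 : (fun k : (I.erase k0 : Finset K) => -(sg (σ k) • V k)) =
                (fun k : (I.erase k0 : Finset K) => sg ((fun j => !(σ j)) k) • V k) := by
              funext k
              simp only [sg_not, neg_smul]
            rw [h4] at h3
            exact hzA' (I.erase k0) (fun j => !(σ j)) hc0 h3
          · rw [hs, sg_true, one_smul] at hmem
            exact hzA' _ _ hc0 hmem
      · have hI0 : I ⊆ J := by
          intro k hk'
          rcases mem_insert.1 (hI hk') with h | h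
          · exact absurd (h ▸ hk') hk
          · exact h
        have h1 := hgp I hI0 σ hcard
        convert h1 using 1
        funext k
        have hk' : (k : K) ≠ k0 := fun h => hk (h ▸ k.2)
        simp [Function.update_of_ne hk']

end Pool.Agent.CsPoly
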