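import Mathlib
import Pool.Agent.CsPoly.GenPos

/-! Good families stay good under small perturbations, so they can be put in general position. -/

namespace Pool.Agent.CsPoly

open Finset

variable {K : Type*} {d : ℕ}

/-- The families for which the points `V k` and `t V l` lie in a common proper face. -/
def Touch (d : ℕ) (k l : K) (t : ℝ) : Set (K → Fin d → ℝ) :=
  {V | ∃ x : Metric.sphere (0 : Fin d → ℝ) 1, (∀ j, |V j ⬝ᵥ x.1| ≤ V k ⬝ᵥ x.1) ∧
    ∀ j, |V j ⬝ᵥ x.1| ≤ t * (V l ⬝ᵥ x.1)}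

/-- The families which do not span. -/
def Flat (K : Type*) (d : ℕ) : Set (K → Fin d → ℝ) :=
  {V | ∃ x : Metric.sphere (0 : Fin d → ℝ) 1, ∀ j, V j ⬝ᵥ x.1 = 0}

theorem isClosed_touch (k l : K) (t : ℝ) : IsClosed (Touch d k l t) := by
  have h1 : IsClosed {p : (K → Fin d → ℝ) × Metric.sphere (0 : Fin d → ℝ) 1 |
      (∀ j, |p.1 j ⬝ᵥ p.2.1| ≤ p.1 k ⬝ᵥ p.2.1) ∧
      ∀ j, |p.1 j ⬝ᵥ p.2.1| ≤ t * (p.1 l ⬝ᵥ p.2.1)} := by
    have hc : ∀ j : K, Continuous (fun p : (K → Fin d → ℝ) × Metric.sphere (0 : Fin d → ℝ) 1 =>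
        p.1 j ⬝ᵥ p.2.1) := by
      intro j
      unfold dotProduct
      refine continuous_finsetSum _ fun i _ => ?_
      exact ((continuous_apply i).comp ((continuous_apply j).comp continuous_fst)).mul
        ((continuous_apply i).comp (continuous_subtype_val.comp continuous_snd))
    rw [Set.ofPred_and, Set.ofPred_forall, Set.ofPred_forall]
    refine IsClosed.inter (isClosed_iInter fun j => ?_) (isClosed_iInter fun j => ?_)
    · exact isClosed_le (hc j).abs (hc k)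
    · exact isClosed_le (hc j).abs ((hc l).const_mul t |>.congr fun p => rfl)
  have h2 := isClosedMap_fst_of_compactSpace
    (X := K → Fin d → ℝ) (Y := Metric.sphere (0 : Fin d → ℝ) 1) _ h1
  convert h2 using 1
  ext V
  constructor
  · rintro ⟨x, hx⟩
    exact ⟨(V, x), hx, rfl⟩
  · rintro ⟨⟨V', x⟩, hx, rfl⟩
    exact ⟨x, hx⟩

theorem isClosed_flat : IsClosed (Flat K d) := by
  have h1 : IsClosed {p : (K → Fin d → ℝ) × Metric.sphere (0 : Fin d → ℝ) 1 |
      ∀ j, p.1 j ⬝ᵥ p.2.1 = 0} := by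
    have hc : ∀ j : K, Continuous (fun p : (K → Fin d → ℝ) × Metric.sphere (0 : Fin d → ℝ) 1 =>
        p.1 j ⬝ᵥ p.2.1) := by
      intro j
      unfold dotProduct
      refine continuous_finsetSum _ fun i _ => ?_
      exact ((continuous_apply i).comp ((continuous_apply j).comp continuous_fst)).mul
        ((continuous_apply i).comp (continuous_subtype_val.comp continuous_snd))
    rw [Set.ofPred_forall]
    exact isClosed_iInter fun j => isClosed_eq (hc j) continuous_const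
  have h2 := isClosedMap_fst_of_compactSpace
    (X := K → Fin d → ℝ) (Y := Metric.sphere (0 : Fin d → ℝ) 1) _ h1
  convert h2 using 1
  ext V
  constructor
  · rintro ⟨x, hx⟩
    exact ⟨(V, x), hx, rfl⟩
  · rintro ⟨⟨V', x⟩, hx, rfl⟩
    exact ⟨x, hx⟩

theorem sphere_ne_zero (x : Metric.sphere (0 : Fin d → ℝ) 1) : x.1 ≠ 0 := by
  intro h
  have h1 := x.2
  rw [h] at h1
  simp at h1

theorem exists_sphere (x : Fin d → ℝ) (hx : x ≠ 0) :
    ∃ u : Metric.sphere (0 : Fin d → ℝ) 1, ∃ c : ℝ, 0 < c ∧ u.1 = c • x := by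
  have hn : 0 < ‖x‖ := norm_pos_iff.2 hx
  refine ⟨⟨‖x‖⁻¹ • x, ?_⟩, ‖x‖⁻¹, inv_pos.2 hn, rfl⟩
  rw [mem_sphere_zero_iff_norm, norm_smul, norm_inv, norm_norm, inv_mul_cancel₀ hn.ne']

theorem dot_scale (v x : Fin d → ℝ) (c : ℝ) : v ⬝ᵥ (c • x) = c * (v ⬝ᵥ x) := by
  rw [dotProduct_smul, smul_eq_mul]

theorem Good.exists_genPos [Finite K] {V0 : K → Fin d → ℝ} (h : Good V0) :
    ∃ V : K → Fin d → ℝ, Good V ∧ ∀ (I : Finset K) (σ : K → Bool), I.card ≤ d + 1 →
      AffineIndependent ℝ (fun k : I => sg (σ k) • V k) := by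
  classical
  have := Fintype.ofFinite K
  let U : Set (K → Fin d → ℝ) := (Flat K d)ᶜ ∩
    ⋂ q : K × K, ((Touch d q.1 q.2 1)ᶜ ∪ (Touch d q.1 q.2 (-1))ᶜ)
  have hU : IsOpen U := by
    refine isClosed_flat.isOpen_compl.inter (isOpen_iInter_of_finite fun q => ?_)
    exact (isClosed_touch _ _ _).isOpen_compl.union (isClosed_touch _ _ _).isOpen_compl
  have h0 : V0 ∈ U := by
    refine ⟨?_, Set.mem_iInter.2 fun q => ?_⟩
    · rintro ⟨x, hx⟩
      obtain ⟨k, hk⟩ := h.span x.1 (sphere_ne_zero x)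
      exact hk (hx k)
    · by_contra hc
      simp only [Set.mem_union, Set.mem_compl_iff, not_or, not_not] at hc
      obtain ⟨⟨x, hx1, hx2⟩, ⟨y, hy1, hy2⟩⟩ := hc
      exact h.ns q.1 q.2 x.1 y.1 (sphere_ne_zero x) (sphere_ne_zero y) hx1
        (fun j => by simpa using hx2 j) hy1 (fun j => by simpa using hy2 j)
  obtain ⟨δ, hδ, hball⟩ := Metric.isOpen_iff.1 hU V0 h0
  obtain ⟨V, hV, hgp⟩ := exists_genPosOn V0 hδ (Finset.univ : Finset K)
  have hVU : V ∈ U := hball (by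
    rw [Metric.mem_ball, dist_pi_lt_iff hδ]
    exact hV)
  refine ⟨V, ⟨?_, ?_⟩, fun I σ hI => hgp I (subset_univ _) σ hI⟩
  · intro x hx
    by_contra hc
    push Not at hc
    obtain ⟨u, c, hc0, hu⟩ := exists_sphere x hx
    exact hVU.1 ⟨u, fun j => by rw [hu, dot_scale, hc j, mul_zero]⟩
  · intro k l x y hx hy a1 a2 a3 a4
    obtain ⟨u, c, hc0, hu⟩ := exists_sphere x hx
    obtain ⟨w, e, he0, hw⟩ := exists_sphere y hy
    rcases Set.mem_iInter.1 hVU.2 (k, l) with h1 | h1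
    · apply h1
      refine ⟨u, fun j => ?_, fun j => ?_⟩
      · rw [hu, dot_scale, dot_scale, abs_mul, abs_of_pos hc0]
        exact mul_le_mul_of_nonneg_left (a1 j) hc0.le
      · rw [hu, dot_scale, dot_scale, abs_mul, abs_of_pos hc0, one_mul]
        exact mul_le_mul_of_nonneg_left (a2 j) hc0.le
    · apply h1
      refine ⟨w, fun j => ?_, fun j => ?_⟩
      · rw [hw, dot_scale, dot_scale, abs_mul, abs_of_pos he0]
        exact mul_le_mul_of_nonneg_left (a3 j) he0.le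
      · rw [hw, dot_scale, dot_scale, abs_mul, abs_of_pos he0]
        have := mul_le_mul_of_nonneg_left (a4 j) he0.le
        linarith

end Pool.Agent.CsPoly
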