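import Mathlib
import Pool.Agent.CsPoly.Defs
import Pool.Agent.CsPoly.Perturb

/-! From a good family in general position to a simplicial polytope. -/

namespace Pool.Agent.CsPoly

open Finset Module

variable {K : Type*} {d : ℕ}

theorem dot_rep (f : (Fin d → ℝ) →ₗ[ℝ] ℝ) : ∃ x : Fin d → ℝ, ∀ y, f y = y ⬝ᵥ x := by
  refine ⟨fun i => f (Pi.single i 1), fun y => ?_⟩
  conv_lhs => rw [pi_eq_sum_univ' y]
  rw [map_sum]
  simp only [map_smul, smul_eq_mul, dotProduct]

theorem segment_ne {P : Set (Fin d → ℝ)} (hs : ∀ x ∈ P, -x ∈ P) {a b : Fin d → ℝ}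
    (hab : a ≠ b) (hab' : b ≠ -a) : segment ℝ a b ≠ P := by
  intro h
  have ha : -a ∈ segment ℝ a b := by
    rw [h]; exact hs a (h ▸ left_mem_segment ℝ a b)
  have hb : -b ∈ segment ℝ a b := by
    rw [h]; exact hs b (h ▸ right_mem_segment ℝ a b)
  obtain ⟨u, v, hu, hv, huv, e1⟩ := ha
  obtain ⟨u', v', hu', hv', huv', e2⟩ := hb
  obtain ⟨i, hi⟩ := Function.ne_iff.1 hab
  have f1 := congrFun e1 i
  have f2 := congrFun e2 i
  simp only [Pi.add_apply, Pi.smul_apply, smul_eq_mul, Pi.neg_apply] at f1 f2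
  have hi' : a i - b i ≠ 0 := sub_ne_zero.2 hi
  have hv1 : (v - v' - 1) * (a i - b i) = 0 := by
    have h1 : u = 1 - v := by linarith
    have h2 : u' = 1 - v' := by linarith
    rw [h1] at f1
    rw [h2] at f2
    linarith
  have hv2 : v - v' - 1 = 0 := by
    rcases mul_eq_zero.1 hv1 with h | h
    · exact h
    · exact absurd h hi'
  have hv3 : v = 1 := by linarith
  have hu3 : u = 0 := by linarith
  apply hab'
  rw [hv3, hu3, zero_smul, zero_add, one_smul] at e1
  exact e1

theorem Good.polytope [Fintype K] {V : K → Fin d → ℝ} (hV : Good V)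
    (hgp : ∀ (I : Finset K) (σ : K → Bool), I.card ≤ d + 1 →
      AffineIndependent ℝ (fun k : I => sg (σ k) • V k)) (hd : 1 ≤ d) :
    ∃ P : Set (Fin d → ℝ), IsCsSimplicialPolytope d P ∧ ¬ HasCsFourCycle P ∧
      (P.extremePoints ℝ).ncard ≤ 2 * Fintype.card K := by
  classical
  let S : Finset (Fin d → ℝ) := univ.image V ∪ univ.image (fun k => -V k)
  have memS : ∀ v, v ∈ S ↔ ∃ k b, v = sg b • V k := by
    intro v
    simp only [S, mem_union, mem_image, mem_univ, true_and]
    constructor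
    · rintro (⟨k, rfl⟩ | ⟨k, rfl⟩)
      · exact ⟨k, true, by simp [sg]⟩
      · exact ⟨k, false, by simp [sg]⟩
    · rintro ⟨k, b, rfl⟩
      cases b
      · exact Or.inr ⟨k, by simp [sg]⟩
      · exact Or.inl ⟨k, by simp [sg]⟩
  let P : Set (Fin d → ℝ) := convexHull ℝ (S : Set (Fin d → ℝ))
  have SP : ∀ v ∈ S, v ∈ P := fun v hv => subset_convexHull ℝ _ hv
  have extS : ∀ v ∈ P.extremePoints ℝ, v ∈ S := fun v hv =>
    extremePoints_convexHull_subset hv
  have symm : ∀ x ∈ P, -x ∈ P := by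
    intro x hx
    have h1 : (-(S : Set (Fin d → ℝ))) = S := by
      ext v
      simp only [Set.mem_neg, mem_coe]
      constructor
      · intro h
        obtain ⟨k, b, hk⟩ := (memS _).1 h
        exact (memS _).2 ⟨k, !b, by rw [sg_not, neg_smul, ← hk, neg_neg]⟩
      · intro h
        obtain ⟨k, b, hk⟩ := (memS _).1 h
        exact (memS _).2 ⟨k, !b, by rw [sg_not, neg_smul, ← hk]⟩
    have h2 : convexHull ℝ (-(S : Set (Fin d → ℝ))) = -(convexHull ℝ (S : Set (Fin d → ℝ))) :=
      convexHull_neg _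
    rw [h1] at h2
    have h3 : x ∈ -(convexHull ℝ (S : Set (Fin d → ℝ))) := by rw [← h2]; exact hx
    exact h3
  -- points of `S` under a linear form
  have bound : ∀ (x z : Fin d → ℝ), (∀ y ∈ P, y ⬝ᵥ x ≤ z ⬝ᵥ x) → ∀ j, |V j ⬝ᵥ x| ≤ z ⬝ᵥ x := by
    intro x z h j
    rw [abs_le]
    have h1 := h (V j) (SP _ ((memS _).2 ⟨j, true, by simp [sg]⟩))
    have h2 := h (-V j) (SP _ ((memS _).2 ⟨j, false, by simp [sg]⟩))
    rw [neg_dotProduct] at h2
    constructor <;> linarith
  have expo : ∀ F : Set (Fin d → ℝ), IsExposed ℝ P F → F ≠ P → F.Nonempty →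
      ∃ x : Fin d → ℝ, x ≠ 0 ∧ ∀ z ∈ F, ∀ j, |V j ⬝ᵥ x| ≤ z ⬝ᵥ x := by
    intro F hF hFP hne
    obtain ⟨l, hl⟩ := hF hne
    obtain ⟨x, hx⟩ := dot_rep (l : (Fin d → ℝ) →ₗ[ℝ] ℝ)
    have hx' : ∀ y, l y = y ⬝ᵥ x := hx
    refine ⟨x, ?_, ?_⟩
    · rintro rfl
      apply hFP
      rw [hl]
      ext z
      constructor
      · exact fun h => h.1
      · exact fun h => ⟨h, fun y _ => by rw [hx', hx']; simp⟩
    · intro z hz
      rw [hl] at hz
      exact bound x z fun y hy => by rw [← hx', ← hx']; exact hz.2 y hy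
  refine ⟨P, ⟨⟨S, rfl⟩, ?_, symm, ?_⟩, ?_, ?_⟩
  · -- interior
    have hconv : Convex ℝ P := convex_convexHull ℝ _
    rw [hconv.interior_nonempty_iff_affineSpan_eq_top]
    by_contra hne
    obtain ⟨k0, -⟩ := hV.span (fun _ => 1) (by
      intro h
      have := congrFun h ⟨0, hd⟩
      simp at this)
    have hA : (affineSpan ℝ P : Set (Fin d → ℝ)).Nonempty :=
      ⟨V k0, subset_affineSpan ℝ P (SP _ ((memS _).2 ⟨k0, true, by simp [sg]⟩))⟩
    have hdir : (affineSpan ℝ P).direction ≠ ⊤ := by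
      intro h
      exact hne ((AffineSubspace.direction_eq_top_iff_of_nonempty hA).1 h)
    obtain ⟨f, hf0, hf⟩ := Submodule.exists_le_ker_of_lt_top _ (lt_top_iff_ne_top.2 hdir)
    obtain ⟨x, hx⟩ := dot_rep f
    have hx0 : x ≠ 0 := by
      rintro rfl
      apply hf0
      ext y
      simp [hx]
    obtain ⟨k, hk⟩ := hV.span x hx0
    apply hk
    have h1 : V k ∈ affineSpan ℝ P :=
      subset_affineSpan ℝ P (SP _ ((memS _).2 ⟨k, true, by simp [sg]⟩))
    have h2 : -V k ∈ affineSpan ℝ P :=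
      subset_affineSpan ℝ P (SP _ ((memS _).2 ⟨k, false, by simp [sg]⟩))
    have h3 := hf (AffineSubspace.vsub_mem_direction h1 h2)
    rw [LinearMap.mem_ker, hx, vsub_eq_sub, sub_neg_eq_add, add_dotProduct] at h3
    linarith
  · -- simplicial
    intro F hF hFP
    rcases F.eq_empty_or_nonempty with hne | hne
    · subst hne
      have : IsEmpty ((∅ ∩ P.extremePoints ℝ : Set (Fin d → ℝ))) := by
        rw [Set.empty_inter]; infer_instance
      exact affineIndependent_of_subsingleton ℝ _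
    obtain ⟨x, hx0, hx⟩ := expo F hF hFP hne
    obtain ⟨j0, hj0⟩ := hV.span x hx0
    let σ : K → Bool := fun k => decide (0 ≤ V k ⬝ᵥ x)
    have hσ : ∀ k, sg (σ k) * (V k ⬝ᵥ x) = |V k ⬝ᵥ x| := by
      intro k
      by_cases h : 0 ≤ V k ⬝ᵥ x
      · simp [σ, h, sg, abs_of_nonneg h]
      · simp [σ, h, sg, abs_of_neg (not_le.1 h)]
    let I : Finset K := univ.filter (fun k => ∀ j, |V j ⬝ᵥ x| ≤ |V k ⬝ᵥ x|)
    have hsub : F ∩ P.extremePoints ℝ ⊆ Set.range (fun k : I => sg (σ k) • V k) := by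
      rintro v ⟨hvF, hvE⟩
      obtain ⟨k, b, rfl⟩ := (memS v).1 (extS v hvE)
      have h1 := hx _ hvF
      simp only [smul_dotProduct, smul_eq_mul] at h1
      have h2 : |sg b * (V k ⬝ᵥ x)| = |V k ⬝ᵥ x| := by
        cases b <;> simp [sg]
      have h3 : sg b * (V k ⬝ᵥ x) = |V k ⬝ᵥ x| :=
        le_antisymm ((le_abs_self _).trans h2.le) (h1 k)
      have hk : k ∈ I := by
        simp only [I, mem_filter, mem_univ, true_and]
        intro j
        rw [← h3]
        exact h1 j
      have hpos : 0 < |V k ⬝ᵥ x| := by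
        have := h1 j0
        rw [h3] at this
        exact lt_of_lt_of_le (abs_pos.2 hj0) this
      have hb : b = σ k := by
        have h4 := hσ k
        rw [← h3] at h4
        have h5 : V k ⬝ᵥ x ≠ 0 := abs_pos.1 hpos
        have h6 : sg (σ k) = sg b := mul_right_cancel₀ h5 h4
        revert h6
        cases b <;> cases (σ k) <;> simp [sg] <;> norm_num
      exact ⟨⟨k, hk⟩, by rw [hb]⟩
    have hcard : I.card ≤ d := by
      by_contra hc
      push Not at hc
      obtain ⟨I', hI', hc'⟩ := exists_subset_card_eq (n := d + 1) (s := I) (by omega)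
      have h1 := hgp I' σ (by omega)
      have h2 : affineSpan ℝ (Set.range (fun k : I' => sg (σ k) • V k)) = ⊤ := by
        rw [h1.affineSpan_eq_top_iff_card_eq_finrank_add_one]
        simp [hc']
      have h3 : vectorSpan ℝ (Set.range (fun k : I' => sg (σ k) • V k)) = ⊤ := by
        rw [← direction_affineSpan, h2, AffineSubspace.direction_top]
      have hval : ∀ k ∈ I, ∀ k' ∈ I, |V k ⬝ᵥ x| = |V k' ⬝ᵥ x| := by
        intro k hk k' hk'
        simp only [I, mem_filter, mem_univ, true_and] at hk hk'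
        exact le_antisymm (hk' k) (hk k')
      let f : (Fin d → ℝ) →ₗ[ℝ] ℝ :=
        { toFun := fun y => y ⬝ᵥ x
          map_add' := fun a b => add_dotProduct a b x
          map_smul' := fun c a => by simp [smul_dotProduct] }
      have h4 : vectorSpan ℝ (Set.range (fun k : I' => sg (σ k) • V k)) ≤ LinearMap.ker f := by
        rw [vectorSpan_def, Submodule.span_le]
        rintro w ⟨a, ⟨k, rfl⟩, b, ⟨k', rfl⟩, rfl⟩
        simp only [SetLike.mem_coe, LinearMap.mem_ker]
        show (sg (σ k) • V k - sg (σ k') • V k') ⬝ᵥ x = 0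
        rw [sub_dotProduct, smul_dotProduct, smul_dotProduct, smul_eq_mul, smul_eq_mul, hσ, hσ,
          hval k (hI' k.2) k' (hI' k'.2), sub_self]
      rw [h3, top_le_iff] at h4
      apply hx0
      have h5 : f x = 0 := by
        have : x ∈ LinearMap.ker f := by rw [h4]; trivial
        exact this
      exact dotProduct_self_eq_zero.1 h5
    have h1 := (hgp I σ (by omega)).range
    exact h1.mono hsub
  · -- no centrally symmetric 4-cycle
    rintro ⟨v, w, hwv, hwv', ⟨hv, hw, -, e1⟩, ⟨-, -, -, e2⟩, -, -⟩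
    have n1 : segment ℝ v w ≠ P := segment_ne symm (Ne.symm hwv) hwv'
    have n2 : segment ℝ w (-v) ≠ P :=
      segment_ne symm hwv' (fun h => hwv (neg_injective h).symm)
    obtain ⟨x1, hx1, b1⟩ := expo _ e1 n1 ⟨v, left_mem_segment ℝ v w⟩
    obtain ⟨x2, hx2, b2⟩ := expo _ e2 n2 ⟨w, left_mem_segment ℝ w (-v)⟩
    have c1 := b1 v (left_mem_segment ℝ v w)
    have c2 := b1 w (right_mem_segment ℝ v w)
    have c3 := b2 w (left_mem_segment ℝ w (-v))
    have c4 := b2 (-v) (right_mem_segment ℝ w (-v))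
    obtain ⟨k, a, rfl⟩ := (memS v).1 (extS v hv)
    obtain ⟨l, b, rfl⟩ := (memS w).1 (extS w hw)
    simp only [smul_dotProduct, smul_eq_mul, neg_dotProduct] at c1 c2 c3 c4
    have sb : ∀ (j : K) (x : Fin d → ℝ), |V j ⬝ᵥ (sg b • x)| = |V j ⬝ᵥ x| := by
      intro j x
      rw [dot_scale]
      cases b <;> simp [sg]
    have nz : ∀ x : Fin d → ℝ, x ≠ 0 → sg b • x ≠ 0 := by
      intro x hx h
      apply hx
      have := congrArg (fun z => sg b • z) h
      simpa [smul_smul, sg_mul_self] using this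
    by_cases hab : a = b
    · subst hab
      refine hV.ns l k (sg a • x1) (sg a • x2) (nz x1 hx1) (nz x2 hx2) ?_ ?_ ?_ ?_ <;>
        intro j <;> rw [sb, dot_scale]
      · exact c2 j
      · exact c1 j
      · exact c3 j
      · exact c4 j
    · have hab' : sg a = -sg b := by
        revert hab
        cases a <;> cases b <;> simp [sg]
      rw [hab'] at c1 c4
      refine hV.ns l k (sg b • x2) (sg b • x1) (nz x2 hx2) (nz x1 hx1) ?_ ?_ ?_ ?_ <;>
        intro j <;> rw [sb, dot_scale]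
      · exact c3 j
      · have := c4 j; linarith
      · exact c2 j
      · have := c1 j; linarith
  · -- number of vertices
    have h1 : (P.extremePoints ℝ).ncard ≤ (S : Set (Fin d → ℝ)).ncard :=
      Set.ncard_le_ncard (fun v hv => extS v hv) S.finite_toSet
    rw [Set.ncard_coe_finset] at h1
    have h2 : S.card ≤ (univ.image V).card + (univ.image (fun k => -V k)).card :=
      card_union_le _ _
    have h3 : (univ.image V).card ≤ Fintype.card K := card_image_le
    have h4 : (univ.image (fun k => -V k)).card ≤ Fintype.card K := card_image_le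
    omega

/-- A non-square set of functionals gives a polytope with at most that many vertices. -/
theorem NSet.exists_polytope {d : ℕ} (hd : 1 ≤ d) {R : Finset (Fin d → ℝ)} (h : NSet R) :
    ∃ P : Set (Fin d → ℝ), IsCsSimplicialPolytope d P ∧ ¬ HasCsFourCycle P ∧
      (P.extremePoints ℝ).ncard ≤ R.card := by
  obtain ⟨K, hK, hgood⟩ := h.exists_good
  obtain ⟨V, hV, hgp⟩ := hgood.exists_genPos
  obtain ⟨P, h1, h2, h3⟩ := hV.polytope hgp hd
  refine ⟨P, h1, h2, ?_⟩
  rw [Fintype.card_coe] at h3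
  omega

end Pool.Agent.CsPoly
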