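import Mathlib
import Pool.Agent.CsPoly.Pair

/-! A table of compatible pairs in dimensions up to 80. -/

namespace Pool.Agent.CsPoly

theorem t1_2_2 : HasPair 1 2 2 := hasPair_one
theorem t2_4_4 : HasPair 2 4 4 := (t1_2_2.add t1_2_2 :)
theorem t3_6_8 : HasPair 3 6 8 := (t1_2_2.add t2_4_4 :)
theorem t3_8_6 : HasPair 3 8 6 := (t1_2_2.mul t2_4_4 :)
theorem t4_8_16 : HasPair 4 8 16 := (t1_2_2.add t3_6_8 :)
theorem t4_10_12 : HasPair 4 10 12 := (t1_2_2.add t3_8_6 :)
theorem t4_12_10 : HasPair 4 12 10 := (t1_2_2.mul t3_6_8 :)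
theorem t4_16_8 : HasPair 4 16 8 := (t1_2_2.mul t3_8_6 :)
theorem t5_10_32 : HasPair 5 10 32 := (t1_2_2.add t4_8_16 :)
theorem t5_12_24 : HasPair 5 12 24 := (t1_2_2.add t4_10_12 :)
theorem t5_14_20 : HasPair 5 14 20 := (t1_2_2.add t4_12_10 :)
theorem t5_20_14 : HasPair 5 20 14 := (t1_2_2.mul t4_10_12 :)
theorem t5_24_12 : HasPair 5 24 12 := (t1_2_2.mul t4_12_10 :)
theorem t5_32_10 : HasPair 5 32 10 := (t1_2_2.mul t4_16_8 :)
theorem t6_12_64 : HasPair 6 12 64 := (t1_2_2.add t5_10_32 :)
theorem t6_16_36 : HasPair 6 16 36 := (t3_8_6.add t3_8_6 :)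
theorem t6_36_16 : HasPair 6 36 16 := (t3_6_8.mul t3_6_8 :)
theorem t6_64_12 : HasPair 6 64 12 := (t1_2_2.mul t5_32_10 :)
theorem t7_14_128 : HasPair 7 14 128 := (t1_2_2.add t6_12_64 :)
theorem t7_18_72 : HasPair 7 18 72 := (t1_2_2.add t6_16_36 :)
theorem t7_20_60 : HasPair 7 20 60 := (t3_8_6.add t4_12_10 :)
theorem t7_24_48 : HasPair 7 24 48 := (t3_8_6.add t4_16_8 :)
theorem t7_60_20 : HasPair 7 60 20 := (t3_6_8.mul t4_10_12 :)
theorem t7_72_18 : HasPair 7 72 18 := (t1_2_2.mul t6_36_16 :)
theorem t7_128_14 : HasPair 7 128 14 := (t1_2_2.mul t6_64_12 :)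
theorem t8_20_144 : HasPair 8 20 144 := (t1_2_2.add t7_18_72 :)
theorem t8_24_100 : HasPair 8 24 100 := (t4_12_10.add t4_12_10 :)
theorem t8_32_64 : HasPair 8 32 64 := (t4_16_8.add t4_16_8 :)
theorem t8_64_32 : HasPair 8 64 32 := (t4_8_16.mul t4_8_16 :)
theorem t8_100_24 : HasPair 8 100 24 := (t4_10_12.mul t4_10_12 :)
theorem t8_144_20 : HasPair 8 144 20 := (t1_2_2.mul t7_72_18 :)
theorem t8_256_16 : HasPair 8 256 16 := (t1_2_2.mul t7_128_14 :)
theorem t9_24_216 : HasPair 9 24 216 := (t3_8_6.add t6_16_36 :)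
theorem t9_36_112 : HasPair 9 36 112 := (t4_16_8.add t5_20_14 :)
theorem t9_96_40 : HasPair 9 96 40 := (t4_8_16.mul t5_12_24 :)
theorem t9_112_36 : HasPair 9 112 36 := (t4_8_16.mul t5_14_20 :)
theorem t9_216_24 : HasPair 9 216 24 := (t3_6_8.mul t6_36_16 :)
theorem t10_40_196 : HasPair 10 40 196 := (t5_20_14.add t5_20_14 :)
theorem t10_52_128 : HasPair 10 52 128 := (t4_16_8.add t6_36_16 :)
theorem t10_64_100 : HasPair 10 64 100 := (t5_32_10.add t5_32_10 :)
theorem t10_100_64 : HasPair 10 100 64 := (t5_10_32.mul t5_10_32 :)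
theorem t10_128_52 : HasPair 10 128 52 := (t4_8_16.mul t6_16_36 :)
theorem t10_360_28 : HasPair 10 360 28 := (t3_6_8.mul t7_60_20 :)
theorem t10_432_26 : HasPair 10 432 26 := (t1_2_2.mul t9_216_24 :)
theorem t11_60_192 : HasPair 11 60 192 := (t5_24_12.add t6_36_16 :)
theorem t11_68_160 : HasPair 11 68 160 := (t5_32_10.add t6_36_16 :)
theorem t11_160_68 : HasPair 11 160 68 := (t5_10_32.mul t6_16_36 :)
theorem t11_600_32 : HasPair 11 600 32 := (t3_6_8.mul t8_100_24 :)
theorem t11_864_28 : HasPair 11 864 28 := (t1_2_2.mul t10_432_26 :)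
theorem t12_48_512 : HasPair 12 48 512 := (t4_16_8.add t8_32_64 :)
theorem t12_72_256 : HasPair 12 72 256 := (t6_36_16.add t6_36_16 :)
theorem t12_256_72 : HasPair 12 256 72 := (t6_16_36.mul t6_16_36 :)
theorem t12_512_48 : HasPair 12 512 48 := (t4_8_16.mul t8_64_32 :)
theorem t12_1296_32 : HasPair 12 1296 32 := (t3_6_8.mul t9_216_24 :)
theorem t13_52_896 : HasPair 13 52 896 := (t4_16_8.add t9_36_112 :)
theorem t13_96_320 : HasPair 13 96 320 := (t5_32_10.add t8_64_32 :)
theorem t13_384_84 : HasPair 13 384 84 := (t6_16_36.mul t7_24_48 :)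
theorem t13_768_56 : HasPair 13 768 56 := (t4_8_16.mul t9_96_40 :)
theorem t13_896_52 : HasPair 13 896 52 := (t4_8_16.mul t9_112_36 :)
theorem t13_2160_36 : HasPair 13 2160 36 := (t3_6_8.mul t10_360_28 :)
theorem t14_100_512 : HasPair 14 100 512 := (t6_36_16.add t8_64_32 :)
theorem t14_144_324 : HasPair 14 144 324 := (t7_72_18.add t7_72_18 :)
theorem t14_400_120 : HasPair 14 400 120 := (t7_20_60.mul t7_20_60 :)
theorem t14_512_100 : HasPair 14 512 100 := (t6_16_36.mul t8_32_64 :)
theorem t14_3600_40 : HasPair 14 3600 40 := (t3_6_8.mul t11_600_32 :)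
theorem t15_124_640 : HasPair 15 124 640 := (t7_60_20.add t8_64_32 :)
theorem t15_640_124 : HasPair 15 640 124 := (t7_20_60.mul t8_32_64 :)
theorem t15_7776_40 : HasPair 15 7776 40 := (t3_6_8.mul t12_1296_32 :)
theorem t16_128_1024 : HasPair 16 128 1024 := (t8_64_32.add t8_64_32 :)
theorem t16_200_576 : HasPair 16 200 576 := (t8_100_24.add t8_100_24 :)
theorem t16_1024_128 : HasPair 16 1024 128 := (t8_32_64.mul t8_32_64 :)
theorem t16_4096_64 : HasPair 16 4096 64 := (t4_8_16.mul t12_512_48 :)
theorem t17_160_1280 : HasPair 17 160 1280 := (t7_60_20.add t10_100_64 :)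
theorem t17_172_1152 : HasPair 17 172 1152 := (t7_72_18.add t10_100_64 :)
theorem t17_212_864 : HasPair 17 212 864 := (t8_100_24.add t9_112_36 :)
theorem t17_2560_104 : HasPair 17 2560 104 := (t5_10_32.mul t12_256_72 :)
theorem t17_6144_72 : HasPair 17 6144 72 := (t4_8_16.mul t13_768_56 :)
theorem t17_7168_68 : HasPair 17 7168 68 := (t4_8_16.mul t13_896_52 :)
theorem t18_228_1248 : HasPair 18 228 1248 := (t8_100_24.add t10_128_52 :)
theorem t18_432_576 : HasPair 18 432 576 := (t9_216_24.add t9_216_24 :)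
theorem t18_2048_164 : HasPair 18 2048 164 := (t8_32_64.mul t10_64_100 :)
theorem t18_4096_108 : HasPair 18 4096 108 := (t6_16_36.mul t12_256_72 :)
theorem t18_12544_72 : HasPair 18 12544 72 := (t5_14_20.mul t13_896_52 :)
theorem t19_260_1632 : HasPair 19 260 1632 := (t8_100_24.add t11_160_68 :)
theorem t19_384_1008 : HasPair 19 384 1008 := (t7_128_14.add t12_256_72 :)
theorem t19_6144_120 : HasPair 19 6144 120 := (t6_16_36.mul t13_384_84 :)
theorem t19_24576_72 : HasPair 19 24576 72 := (t3_6_8.mul t16_4096_64 :)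
theorem t20_400_1440 : HasPair 20 400 1440 := (t8_144_20.add t12_256_72 :)
theorem t20_8192_136 : HasPair 20 8192 136 := (t6_16_36.mul t14_512_100 :)
theorem t20_32768_80 : HasPair 20 32768 80 := (t4_8_16.mul t16_4096_64 :)
theorem t21_472_1728 : HasPair 21 472 1728 := (t9_216_24.add t12_256_72 :)
theorem t21_3536_288 : HasPair 21 3536 288 := (t10_52_128.mul t11_68_160 :)
theorem t21_8000_180 : HasPair 21 8000 180 := (t7_20_60.mul t14_400_120 :)
theorem t21_49152_88 : HasPair 21 49152 88 := (t4_8_16.mul t17_6144_72 :)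
theorem t22_4624_320 : HasPair 22 4624 320 := (t11_68_160.mul t11_68_160 :)
theorem t22_12800_184 : HasPair 22 12800 184 := (t7_20_60.mul t15_640_124 :)
theorem t22_25600_136 : HasPair 22 25600 136 := (t5_10_32.mul t17_2560_104 :)
theorem t22_32768_124 : HasPair 22 32768 124 := (t4_8_16.mul t18_4096_108 :)
theorem t23_40960_140 : HasPair 23 40960 140 := (t5_10_32.mul t18_4096_108 :)
theorem t24_5184_512 : HasPair 24 5184 512 := (t12_72_256.mul t12_72_256 :)
theorem t24_32768_192 : HasPair 24 32768 192 := (t8_32_64.mul t16_1024_128 :)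
theorem t24_65536_144 : HasPair 24 65536 144 := (t6_16_36.mul t18_4096_108 :)
theorem t25_6912_576 : HasPair 25 6912 576 := (t12_72_256.mul t13_96_320 :)
theorem t25_98304_156 : HasPair 25 98304 156 := (t6_16_36.mul t19_6144_120 :)
theorem t26_10368_580 : HasPair 26 10368 580 := (t12_72_256.mul t14_144_324 :)
theorem t26_65536_228 : HasPair 26 65536 228 := (t8_32_64.mul t18_2048_164 :)
theorem t26_131072_172 : HasPair 26 131072 172 := (t6_16_36.mul t20_8192_136 :)
theorem t27_5952_1152 : HasPair 27 5952 1152 := (t12_48_512.mul t15_124_640 :)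
theorem t27_13824_644 : HasPair 27 13824 644 := (t13_96_320.mul t14_144_324 :)
theorem t27_256000_168 : HasPair 27 256000 168 := (t5_10_32.mul t22_25600_136 :)
theorem t28_20736_648 : HasPair 28 20736 648 := (t14_144_324.mul t14_144_324 :)
theorem t28_160000_240 : HasPair 28 160000 240 := (t7_20_60.mul t21_8000_180 :)
theorem t28_409600_172 : HasPair 28 409600 172 := (t5_10_32.mul t23_40960_140 :)
theorem t29_12400_1152 : HasPair 29 12400 1152 := (t14_100_512.mul t15_124_640 :)
theorem t29_84864_388 : HasPair 29 84864 388 := (t8_24_100.mul t21_3536_288 :)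
theorem t29_256000_244 : HasPair 29 256000 244 := (t7_20_60.mul t22_12800_184 :)
theorem t29_655360_176 : HasPair 29 655360 176 := (t5_10_32.mul t24_65536_144 :)
theorem t30_15376_1280 : HasPair 30 15376 1280 := (t15_124_640.mul t15_124_640 :)
theorem t30_110976_420 : HasPair 30 110976 420 := (t8_24_100.mul t22_4624_320 :)
theorem t30_1048576_180 : HasPair 30 1048576 180 := (t6_16_36.mul t24_65536_144 :)
theorem t31_24800_1216 : HasPair 31 24800 1216 := (t15_124_640.mul t16_200_576 :)
theorem t31_166464_432 : HasPair 31 166464 432 := (t9_36_112.mul t22_4624_320 :)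
theorem t31_655360_252 : HasPair 31 655360 252 := (t7_20_60.mul t24_32768_192 :)
theorem t32_16384_2048 : HasPair 32 16384 2048 := (t16_128_1024.mul t16_128_1024 :)
theorem t32_240448_448 : HasPair 32 240448 448 := (t10_52_128.mul t22_4624_320 :)
theorem t32_1048576_256 : HasPair 32 1048576 256 := (t8_32_64.mul t24_32768_192 :)
theorem t33_314432_480 : HasPair 33 314432 480 := (t11_68_160.mul t22_4624_320 :)
theorem t33_1310720_288 : HasPair 33 1310720 288 := (t7_20_60.mul t26_65536_228 :)
theorem t34_2097152_292 : HasPair 34 2097152 292 := (t8_32_64.mul t26_65536_228 :)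
theorem t35_49152_2032 : HasPair 35 49152 2032 := (t16_128_1024.mul t19_384_1008 :)
theorem t35_3200000_300 : HasPair 35 3200000 300 := (t7_20_60.mul t28_160000_240 :)
theorem t36_51200_2464 : HasPair 36 51200 2464 := (t16_128_1024.mul t20_400_1440 :)
theorem t36_373248_768 : HasPair 36 373248 768 := (t12_72_256.mul t24_5184_512 :)
theorem t36_5120000_304 : HasPair 36 5120000 304 := (t7_20_60.mul t29_256000_244 :)
theorem t37_60416_2752 : HasPair 37 60416 2752 := (t16_128_1024.mul t21_472_1728 :)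
theorem t37_497664_832 : HasPair 37 497664 832 := (t12_72_256.mul t25_6912_576 :)
theorem t37_2036736_488 : HasPair 37 2036736 488 := (t8_24_100.mul t29_84864_388 :)
theorem t38_746496_836 : HasPair 38 746496 836 := (t12_72_256.mul t26_10368_580 :)
theorem t38_2663424_520 : HasPair 38 2663424 520 := (t8_24_100.mul t30_110976_420 :)
theorem t39_107616_2976 : HasPair 39 107616 2976 := (t18_228_1248.mul t21_472_1728 :)
theorem t39_285696_1664 : HasPair 39 285696 1664 := (t12_48_512.mul t27_5952_1152 :)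
theorem t39_995328_900 : HasPair 39 995328 900 := (t12_72_256.mul t27_13824_644 :)
theorem t39_3995136_532 : HasPair 39 3995136 532 := (t8_24_100.mul t31_166464_432 :)
theorem t40_122720_3360 : HasPair 40 122720 3360 := (t19_260_1632.mul t21_472_1728 :)
theorem t40_1492992_904 : HasPair 40 1492992 904 := (t12_72_256.mul t28_20736_648 :)
theorem t40_5770752_548 : HasPair 40 5770752 548 := (t8_24_100.mul t32_240448_448 :)
theorem t41_188800_3168 : HasPair 41 188800 3168 := (t20_400_1440.mul t21_472_1728 :)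
theorem t41_595200_1664 : HasPair 41 595200 1664 := (t12_48_512.mul t29_12400_1152 :)
theorem t41_7546368_580 : HasPair 41 7546368 580 := (t8_24_100.mul t33_314432_480 :)
theorem t42_222784_3456 : HasPair 42 222784 3456 := (t21_472_1728.mul t21_472_1728 :)
theorem t42_11319552_592 : HasPair 42 11319552 592 := (t9_36_112.mul t33_314432_480 :)
theorem t43_16350464_608 : HasPair 43 16350464 608 := (t10_52_128.mul t33_314432_480 :)
theorem t44_1537600_1792 : HasPair 44 1537600 1792 := (t14_100_512.mul t30_15376_1280 :)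
theorem t44_21381376_640 : HasPair 44 21381376 640 := (t11_68_160.mul t33_314432_480 :)
theorem t45_1906624_1920 : HasPair 45 1906624 1920 := (t15_124_640.mul t30_15376_1280 :)
theorem t45_8957952_984 : HasPair 45 8957952 984 := (t9_24_216.mul t36_373248_768 :)
theorem t46_3075200_1856 : HasPair 46 3075200 1856 := (t15_124_640.mul t31_24800_1216 :)
theorem t46_14929920_964 : HasPair 46 14929920 964 := (t10_40_196.mul t36_373248_768 :)
theorem t47_3259712_2144 : HasPair 47 3259712 2144 := (t17_212_864.mul t30_15376_1280 :)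
theorem t47_22394880_960 : HasPair 47 22394880 960 := (t11_60_192.mul t36_373248_768 :)
theorem t48_2097152_3072 : HasPair 48 2097152 3072 := (t16_128_1024.mul t32_16384_2048 :)
theorem t48_26873856_1024 : HasPair 48 26873856 1024 := (t12_72_256.mul t36_373248_768 :)
theorem t49_35831808_1088 : HasPair 49 35831808 1088 := (t12_72_256.mul t37_497664_832 :)
theorem t50_53747712_1092 : HasPair 50 53747712 1092 := (t12_72_256.mul t38_746496_836 :)
theorem t51_6291456_3056 : HasPair 51 6291456 3056 := (t16_128_1024.mul t35_49152_2032 :)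
theorem t51_71663616_1156 : HasPair 51 71663616 1156 := (t12_72_256.mul t39_995328_900 :)
theorem t52_6553600_3488 : HasPair 52 6553600 3488 := (t16_128_1024.mul t36_51200_2464 :)
theorem t52_107495424_1160 : HasPair 52 107495424 1160 := (t12_72_256.mul t40_1492992_904 :)
theorem t53_7733248_3776 : HasPair 53 7733248 3776 := (t16_128_1024.mul t37_60416_2752 :)
theorem t53_28569600_2176 : HasPair 53 28569600 2176 := (t12_48_512.mul t41_595200_1664 :)
theorem t53_179159040_1128 : HasPair 53 179159040 1128 := (t8_20_144.mul t45_8957952_984 :)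
theorem t54_10391552_3904 : HasPair 54 10391552 3904 := (t17_172_1152.mul t37_60416_2752 :)
theorem t54_35426304_2304 : HasPair 54 35426304 2304 := (t15_124_640.mul t39_285696_1664 :)
theorem t54_214990848_1200 : HasPair 54 214990848 1200 := (t9_24_216.mul t45_8957952_984 :)
theorem t55_13774848_4000 : HasPair 55 13774848 4000 := (t16_128_1024.mul t39_107616_2976 :)
theorem t55_376233984_1152 : HasPair 55 376233984 1152 := (t7_14_128.mul t48_26873856_1024 :)
theorem t56_15708160_4384 : HasPair 56 15708160 4384 := (t16_128_1024.mul t40_122720_3360 :)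
theorem t56_537477120_1168 : HasPair 56 537477120 1168 := (t8_20_144.mul t48_26873856_1024 :)
theorem t57_24166400_4192 : HasPair 57 24166400 4192 := (t16_128_1024.mul t41_188800_3168 :)
theorem t57_644972544_1240 : HasPair 57 644972544 1240 := (t9_24_216.mul t48_26873856_1024 :)
theorem t58_28516352_4480 : HasPair 58 28516352 4480 := (t16_128_1024.mul t42_222784_3456 :)
theorem t58_153760000_2304 : HasPair 58 153760000 2304 := (t14_100_512.mul t44_1537600_1792 :)
theorem t59_35645440_4736 : HasPair 59 35645440 4736 := (t17_160_1280.mul t42_222784_3456 :)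
theorem t59_190662400_2432 : HasPair 59 190662400 2432 := (t14_100_512.mul t45_1906624_1920 :)
theorem t60_236421376_2560 : HasPair 60 236421376 2560 := (t15_124_640.mul t45_1906624_1920 :)
theorem t61_57923840_5088 : HasPair 61 57923840 5088 := (t19_260_1632.mul t42_222784_3456 :)
theorem t61_381324800_2496 : HasPair 61 381324800 2496 := (t15_124_640.mul t46_3075200_1856 :)
theorem t62_89113600_4896 : HasPair 62 89113600 4896 := (t20_400_1440.mul t42_222784_3456 :)
theorem t62_404204288_2784 : HasPair 62 404204288 2784 := (t15_124_640.mul t47_3259712_2144 :)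
theorem t63_105154048_5184 : HasPair 63 105154048 5184 := (t21_472_1728.mul t42_222784_3456 :)
theorem t63_823661568_2496 : HasPair 63 823661568 2496 := (t18_432_576.mul t45_1906624_1920 :)
theorem t64_268435456_4096 : HasPair 64 268435456 4096 := (t16_128_1024.mul t48_2097152_3072 :)
theorem t65_1371340800_2688 : HasPair 65 1371340800 2688 := (t12_48_512.mul t53_28569600_2176 :)
theorem t66_1700462592_2816 : HasPair 66 1700462592 2816 := (t12_48_512.mul t54_35426304_2304 :)
theorem t67_805306368_4080 : HasPair 67 805306368 4080 := (t16_128_1024.mul t51_6291456_3056 :)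
theorem t68_838860800_4512 : HasPair 68 838860800 4512 := (t16_128_1024.mul t52_6553600_3488 :)
theorem t69_989855744_4800 : HasPair 69 989855744 4800 := (t16_128_1024.mul t53_7733248_3776 :)
theorem t70_1330118656_4928 : HasPair 70 1330118656 4928 := (t16_128_1024.mul t54_10391552_3904 :)
theorem t71_1763180544_5024 : HasPair 71 1763180544 5024 := (t16_128_1024.mul t55_13774848_4000 :)
theorem t72_2010644480_5408 : HasPair 72 2010644480 5408 := (t16_128_1024.mul t56_15708160_4384 :)
theorem t73_3093299200_5216 : HasPair 73 3093299200 5216 := (t16_128_1024.mul t57_24166400_4192 :)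
theorem t74_3650093056_5504 : HasPair 74 3650093056 5504 := (t16_128_1024.mul t58_28516352_4480 :)
theorem t75_4562616320_5760 : HasPair 75 4562616320 5760 := (t16_128_1024.mul t59_35645440_4736 :)
theorem t76_5468010496_6080 : HasPair 76 5468010496 6080 := (t13_52_896.mul t63_105154048_5184 :)
theorem t77_7414251520_6112 : HasPair 77 7414251520 6112 := (t16_128_1024.mul t61_57923840_5088 :)
theorem t78_11406540800_5920 : HasPair 78 11406540800 5920 := (t16_128_1024.mul t62_89113600_4896 :)
theorem t79_13459718144_6208 : HasPair 79 13459718144 6208 := (t16_128_1024.mul t63_105154048_5184 :)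
theorem t80_15060198400_6720 : HasPair 80 15060198400 6720 := (t19_260_1632.mul t61_57923840_5088 :)

/-- If `M ^ q ≤ 2 ^ p` and `p / q ≤ √c` then `M ≤ 2 ^ √c`. -/
theorem pow_bound {M p q : ℕ} {c : ℝ} (hq : 0 < q) (h1 : M ^ q ≤ 2 ^ p)
    (h2 : (p : ℝ) ^ 2 ≤ (q : ℝ) ^ 2 * c) : (M : ℝ) ≤ (2 : ℝ) ^ √c := by
  have hq' : (0 : ℝ) < q := by exact_mod_cast hq
  have h3 : (M : ℝ) ≤ (2 : ℝ) ^ ((p : ℝ) / q) := by
    have h4 : ((2 : ℝ) ^ ((p : ℝ) / q)) ^ q = (2 : ℝ) ^ p := by
      rw [← Real.rpow_natCast, ← Real.rpow_mul (by norm_num), div_mul_cancel₀ _ hq'.ne',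
        Real.rpow_natCast]
    have h5 : (M : ℝ) ^ q ≤ ((2 : ℝ) ^ ((p : ℝ) / q)) ^ q := by
      rw [h4]; exact_mod_cast h1
    exact le_of_pow_le_pow_left₀ hq.ne' (by positivity) h5
  refine h3.trans (Real.rpow_le_rpow_of_exponent_le (by norm_num) ?_)
  apply Real.le_sqrt_of_sq_le
  rw [div_pow, div_le_iff₀ (by positivity)]
  linarith

theorem small_pairs (k : ℕ) (h1 : 1 ≤ k) (h2 : k ≤ 20) : ∃ A B : ℕ, HasPair k A B ∧
    ((5 * A * B ^ 3 : ℕ) : ℝ) ≤ 2 * (2 : ℝ) ^ √(16 * (if k = 1 then 2 else 5 * (k : ℝ) - 4)) := by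
  have key : ∀ {M p q : ℕ} {c : ℝ}, 0 < q → M ^ q ≤ 2 ^ q * 2 ^ p →
      (p : ℝ) ^ 2 ≤ (q : ℝ) ^ 2 * c → (M : ℝ) ≤ 2 * (2 : ℝ) ^ √c := by
    intro M p q c hq a1 a2
    have hq' : (0 : ℝ) < q := by exact_mod_cast hq
    have h3 : (M : ℝ) ≤ 2 * (2 : ℝ) ^ ((p : ℝ) / q) := by
      have h4 : (2 * (2 : ℝ) ^ ((p : ℝ) / q)) ^ q = (2 : ℝ) ^ q * (2 : ℝ) ^ p := by
        rw [mul_pow, ← Real.rpow_natCast ((2 : ℝ) ^ ((p : ℝ) / q)), ← Real.rpow_mul (by norm_num),
          div_mul_cancel₀ _ hq'.ne', Real.rpow_natCast]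
      have h5 : (M : ℝ) ^ q ≤ (2 * (2 : ℝ) ^ ((p : ℝ) / q)) ^ q := by
        rw [h4]; exact_mod_cast a1
      exact le_of_pow_le_pow_left₀ hq.ne' (by positivity) h5
    refine h3.trans (mul_le_mul_of_nonneg_left
      (Real.rpow_le_rpow_of_exponent_le (by norm_num) ?_) (by norm_num))
    apply Real.le_sqrt_of_sq_le
    rw [div_pow, div_le_iff₀ (by positivity)]
    linarith
  interval_cases k
  · exact ⟨2, 2, t1_2_2, key (p := 11) (q := 2) (by norm_num) (by norm_num) (by norm_num)⟩
  · exact ⟨4, 4, t2_4_4, key (p := 19) (q := 2) (by norm_num) (by norm_num) (by norm_num)⟩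
  · exact ⟨8, 6, t3_8_6, key (p := 13) (q := 1) (by norm_num) (by norm_num) (by norm_num)⟩
  · exact ⟨16, 8, t4_16_8, key (p := 16) (q := 1) (by norm_num) (by norm_num) (by norm_num)⟩
  · exact ⟨32, 10, t5_32_10, key (p := 18) (q := 1) (by norm_num) (by norm_num) (by norm_num)⟩
  · exact ⟨64, 12, t6_64_12, key (p := 20) (q := 1) (by norm_num) (by norm_num) (by norm_num)⟩
  · exact ⟨128, 14, t7_128_14, key (p := 22) (q := 1) (by norm_num) (by norm_num) (by norm_num)⟩
  · exact ⟨256, 16, t8_256_16, key (p := 24) (q := 1) (by norm_num) (by norm_num) (by norm_num)⟩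
  · exact ⟨216, 24, t9_216_24, key (p := 25) (q := 1) (by norm_num) (by norm_num) (by norm_num)⟩
  · exact ⟨432, 26, t10_432_26, key (p := 27) (q := 1) (by norm_num) (by norm_num) (by norm_num)⟩
  · exact ⟨864, 28, t11_864_28, key (p := 28) (q := 1) (by norm_num) (by norm_num) (by norm_num)⟩
  · exact ⟨1296, 32, t12_1296_32, key (p := 29) (q := 1) (by norm_num) (by norm_num) (by norm_num)⟩
  · exact ⟨2160, 36, t13_2160_36, key (p := 31) (q := 1) (by norm_num) (by norm_num) (by norm_num)⟩
  · exact ⟨3600, 40, t14_3600_40, key (p := 32) (q := 1) (by norm_num) (by norm_num) (by norm_num)⟩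
  · exact ⟨7776, 40, t15_7776_40, key (p := 33) (q := 1) (by norm_num) (by norm_num) (by norm_num)⟩
  · exact ⟨4096, 64, t16_4096_64, key (p := 34) (q := 1) (by norm_num) (by norm_num) (by norm_num)⟩
  · exact ⟨7168, 68, t17_7168_68, key (p := 36) (q := 1) (by norm_num) (by norm_num) (by norm_num)⟩
  · exact ⟨12544, 72, t18_12544_72, key (p := 37) (q := 1) (by norm_num) (by norm_num) (by norm_num)⟩
  · exact ⟨24576, 72, t19_24576_72, key (p := 38) (q := 1) (by norm_num) (by norm_num) (by norm_num)⟩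
  · exact ⟨32768, 80, t20_32768_80, key (p := 39) (q := 1) (by norm_num) (by norm_num) (by norm_num)⟩

set_option exponentiation.threshold 512 in
theorem big_table (k : ℕ) (h1 : 21 ≤ k) (h2 : k ≤ 80) : ∃ A B : ℕ, HasPair k A B ∧
    ((32 * A * B ^ 3 : ℕ) : ℝ) ≤ (2 : ℝ) ^ √(80 * ((k : ℝ) - 1)) := by
  interval_cases k
  · exact ⟨49152, 88, t21_49152_88, pow_bound (p := 40) (q := 1) (by norm_num) (by norm_num) (by norm_num)⟩
  · exact ⟨32768, 124, t22_32768_124, pow_bound (p := 327) (q := 8) (by norm_num) (by norm_num) (by norm_num)⟩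
  · exact ⟨40960, 140, t23_40960_140, pow_bound (p := 167) (q := 4) (by norm_num) (by norm_num) (by norm_num)⟩
  · exact ⟨65536, 144, t24_65536_144, pow_bound (p := 171) (q := 4) (by norm_num) (by norm_num) (by norm_num)⟩
  · exact ⟨98304, 156, t25_98304_156, pow_bound (p := 87) (q := 2) (by norm_num) (by norm_num) (by norm_num)⟩
  · exact ⟨131072, 172, t26_131072_172, pow_bound (p := 89) (q := 2) (by norm_num) (by norm_num) (by norm_num)⟩
  · exact ⟨256000, 168, t27_256000_168, pow_bound (p := 91) (q := 2) (by norm_num) (by norm_num) (by norm_num)⟩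
  · exact ⟨409600, 172, t28_409600_172, pow_bound (p := 46) (q := 1) (by norm_num) (by norm_num) (by norm_num)⟩
  · exact ⟨655360, 176, t29_655360_176, pow_bound (p := 47) (q := 1) (by norm_num) (by norm_num) (by norm_num)⟩
  · exact ⟨1048576, 180, t30_1048576_180, pow_bound (p := 48) (q := 1) (by norm_num) (by norm_num) (by norm_num)⟩
  · exact ⟨655360, 252, t31_655360_252, pow_bound (p := 97) (q := 2) (by norm_num) (by norm_num) (by norm_num)⟩
  · exact ⟨1048576, 256, t32_1048576_256, pow_bound (p := 49) (q := 1) (by norm_num) (by norm_num) (by norm_num)⟩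
  · exact ⟨1310720, 288, t33_1310720_288, pow_bound (p := 50) (q := 1) (by norm_num) (by norm_num) (by norm_num)⟩
  · exact ⟨2097152, 292, t34_2097152_292, pow_bound (p := 51) (q := 1) (by norm_num) (by norm_num) (by norm_num)⟩
  · exact ⟨3200000, 300, t35_3200000_300, pow_bound (p := 52) (q := 1) (by norm_num) (by norm_num) (by norm_num)⟩
  · exact ⟨5120000, 304, t36_5120000_304, pow_bound (p := 105) (q := 2) (by norm_num) (by norm_num) (by norm_num)⟩
  · exact ⟨2036736, 488, t37_2036736_488, pow_bound (p := 53) (q := 1) (by norm_num) (by norm_num) (by norm_num)⟩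
  · exact ⟨2663424, 520, t38_2663424_520, pow_bound (p := 54) (q := 1) (by norm_num) (by norm_num) (by norm_num)⟩
  · exact ⟨3995136, 532, t39_3995136_532, pow_bound (p := 55) (q := 1) (by norm_num) (by norm_num) (by norm_num)⟩
  · exact ⟨5770752, 548, t40_5770752_548, pow_bound (p := 55) (q := 1) (by norm_num) (by norm_num) (by norm_num)⟩
  · exact ⟨7546368, 580, t41_7546368_580, pow_bound (p := 56) (q := 1) (by norm_num) (by norm_num) (by norm_num)⟩
  · exact ⟨11319552, 592, t42_11319552_592, pow_bound (p := 57) (q := 1) (by norm_num) (by norm_num) (by norm_num)⟩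
  · exact ⟨16350464, 608, t43_16350464_608, pow_bound (p := 57) (q := 1) (by norm_num) (by norm_num) (by norm_num)⟩
  · exact ⟨21381376, 640, t44_21381376_640, pow_bound (p := 58) (q := 1) (by norm_num) (by norm_num) (by norm_num)⟩
  · exact ⟨8957952, 984, t45_8957952_984, pow_bound (p := 59) (q := 1) (by norm_num) (by norm_num) (by norm_num)⟩
  · exact ⟨14929920, 964, t46_14929920_964, pow_bound (p := 60) (q := 1) (by norm_num) (by norm_num) (by norm_num)⟩
  · exact ⟨22394880, 960, t47_22394880_960, pow_bound (p := 60) (q := 1) (by norm_num) (by norm_num) (by norm_num)⟩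
  · exact ⟨26873856, 1024, t48_26873856_1024, pow_bound (p := 61) (q := 1) (by norm_num) (by norm_num) (by norm_num)⟩
  · exact ⟨35831808, 1088, t49_35831808_1088, pow_bound (p := 61) (q := 1) (by norm_num) (by norm_num) (by norm_num)⟩
  · exact ⟨53747712, 1092, t50_53747712_1092, pow_bound (p := 62) (q := 1) (by norm_num) (by norm_num) (by norm_num)⟩
  · exact ⟨71663616, 1156, t51_71663616_1156, pow_bound (p := 63) (q := 1) (by norm_num) (by norm_num) (by norm_num)⟩
  · exact ⟨107495424, 1160, t52_107495424_1160, pow_bound (p := 63) (q := 1) (by norm_num) (by norm_num) (by norm_num)⟩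
  · exact ⟨179159040, 1128, t53_179159040_1128, pow_bound (p := 64) (q := 1) (by norm_num) (by norm_num) (by norm_num)⟩
  · exact ⟨214990848, 1200, t54_214990848_1200, pow_bound (p := 65) (q := 1) (by norm_num) (by norm_num) (by norm_num)⟩
  · exact ⟨376233984, 1152, t55_376233984_1152, pow_bound (p := 65) (q := 1) (by norm_num) (by norm_num) (by norm_num)⟩
  · exact ⟨537477120, 1168, t56_537477120_1168, pow_bound (p := 66) (q := 1) (by norm_num) (by norm_num) (by norm_num)⟩
  · exact ⟨644972544, 1240, t57_644972544_1240, pow_bound (p := 66) (q := 1) (by norm_num) (by norm_num) (by norm_num)⟩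
  · exact ⟨153760000, 2304, t58_153760000_2304, pow_bound (p := 67) (q := 1) (by norm_num) (by norm_num) (by norm_num)⟩
  · exact ⟨190662400, 2432, t59_190662400_2432, pow_bound (p := 68) (q := 1) (by norm_num) (by norm_num) (by norm_num)⟩
  · exact ⟨236421376, 2560, t60_236421376_2560, pow_bound (p := 68) (q := 1) (by norm_num) (by norm_num) (by norm_num)⟩
  · exact ⟨381324800, 2496, t61_381324800_2496, pow_bound (p := 69) (q := 1) (by norm_num) (by norm_num) (by norm_num)⟩
  · exact ⟨404204288, 2784, t62_404204288_2784, pow_bound (p := 69) (q := 1) (by norm_num) (by norm_num) (by norm_num)⟩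
  · exact ⟨823661568, 2496, t63_823661568_2496, pow_bound (p := 70) (q := 1) (by norm_num) (by norm_num) (by norm_num)⟩
  · exact ⟨268435456, 4096, t64_268435456_4096, pow_bound (p := 70) (q := 1) (by norm_num) (by norm_num) (by norm_num)⟩
  · exact ⟨1371340800, 2688, t65_1371340800_2688, pow_bound (p := 71) (q := 1) (by norm_num) (by norm_num) (by norm_num)⟩
  · exact ⟨1700462592, 2816, t66_1700462592_2816, pow_bound (p := 72) (q := 1) (by norm_num) (by norm_num) (by norm_num)⟩
  · exact ⟨805306368, 4080, t67_805306368_4080, pow_bound (p := 72) (q := 1) (by norm_num) (by norm_num) (by norm_num)⟩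
  · exact ⟨838860800, 4512, t68_838860800_4512, pow_bound (p := 73) (q := 1) (by norm_num) (by norm_num) (by norm_num)⟩
  · exact ⟨989855744, 4800, t69_989855744_4800, pow_bound (p := 73) (q := 1) (by norm_num) (by norm_num) (by norm_num)⟩
  · exact ⟨1330118656, 4928, t70_1330118656_4928, pow_bound (p := 74) (q := 1) (by norm_num) (by norm_num) (by norm_num)⟩
  · exact ⟨1763180544, 5024, t71_1763180544_5024, pow_bound (p := 74) (q := 1) (by norm_num) (by norm_num) (by norm_num)⟩
  · exact ⟨2010644480, 5408, t72_2010644480_5408, pow_bound (p := 75) (q := 1) (by norm_num) (by norm_num) (by norm_num)⟩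
  · exact ⟨3093299200, 5216, t73_3093299200_5216, pow_bound (p := 75) (q := 1) (by norm_num) (by norm_num) (by norm_num)⟩
  · exact ⟨3650093056, 5504, t74_3650093056_5504, pow_bound (p := 76) (q := 1) (by norm_num) (by norm_num) (by norm_num)⟩
  · exact ⟨4562616320, 5760, t75_4562616320_5760, pow_bound (p := 76) (q := 1) (by norm_num) (by norm_num) (by norm_num)⟩
  · exact ⟨5468010496, 6080, t76_5468010496_6080, pow_bound (p := 77) (q := 1) (by norm_num) (by norm_num) (by norm_num)⟩
  · exact ⟨7414251520, 6112, t77_7414251520_6112, pow_bound (p := 77) (q := 1) (by norm_num) (by norm_num) (by norm_num)⟩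
  · exact ⟨11406540800, 5920, t78_11406540800_5920, pow_bound (p := 78) (q := 1) (by norm_num) (by norm_num) (by norm_num)⟩
  · exact ⟨13459718144, 6208, t79_13459718144_6208, pow_bound (p := 78) (q := 1) (by norm_num) (by norm_num) (by norm_num)⟩
  · exact ⟨15060198400, 6720, t80_15060198400_6720, pow_bound (p := 79) (q := 1) (by norm_num) (by norm_num) (by norm_num)⟩

end Pool.Agent.CsPoly
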