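import Mathlib
import Pool.Agent.CsPoly.Half

/-! Composition along a tournament, and restriction to fewer coordinates. -/

namespace Pool.Agent.CsPoly

open Finset

theorem exists_nonneg {ι : Type*} [Fintype ι] (K : Finset (ι → ℝ)) (hne : K.Nonempty)
    (hs : ∀ g ∈ K, -g ∈ K) (x : ι → ℝ) : ∃ g ∈ K, 0 ≤ g ⬝ᵥ x := by
  obtain ⟨g, hg⟩ := hne
  rcases le_total 0 (g ⬝ᵥ x) with h | h
  · exact ⟨g, hg, h⟩
  · exact ⟨-g, hs g hg, by rw [neg_dotProduct]; linarith⟩

/-- Restriction of a non-square set along an injection of index types. -/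
theorem NSet.pullback {ι κ : Type*} [Fintype ι] [Fintype κ] {R : Finset (κ → ℝ)} (hR : NSet R)
    (f : ι ↪ κ) : ∃ R' : Finset (ι → ℝ), NSet R' ∧ R'.card ≤ R.card := by
  classical
  let E : (ι → ℝ) → (κ → ℝ) := fun x => Function.extend f x 0
  have dot : ∀ (r : κ → ℝ) (x : ι → ℝ), r ⬝ᵥ E x = (fun i => r (f i)) ⬝ᵥ x := by
    intro r x
    simp only [dotProduct]
    symm
    apply Fintype.sum_of_injective f f.injective
    · intro i hi
      have : E x i = 0 := Function.extend_apply' _ _ _ (fun ⟨a, ha⟩ => hi ⟨a, ha⟩)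
      rw [this, mul_zero]
    · intro i
      have : E x (f i) = x i := f.injective.extend_apply _ _ _
      rw [this]
  have E0 : ∀ x, x ≠ 0 → E x ≠ 0 := by
    intro x hx h
    apply hx
    ext i
    have h1 := congrFun h (f i)
    have : E x (f i) = x i := f.injective.extend_apply _ _ _
    rw [this] at h1
    exact h1
  let R' : Finset (ι → ℝ) := (R.image (fun r i => r (f i))).erase 0
  have memR' : ∀ v, v ∈ R' ↔ v ≠ 0 ∧ ∃ r ∈ R, (fun i => r (f i)) = v := by
    intro v; simp [R']
  have symR' : ∀ v ∈ R', -v ∈ R' := by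
    intro v hv
    obtain ⟨h0, r, hr, rfl⟩ := (memR' v).1 hv
    exact (memR' _).2 ⟨neg_ne_zero.2 h0, -r, hR.sym r hr, rfl⟩
  have top : ∀ r : κ → ℝ, (fun i => r (f i)) ∈ R' → ∀ x : ι → ℝ,
      Top R' (fun i => r (f i)) x → Top R r (E x) := by
    intro r hr x ht r' hr'
    rw [dot, dot]
    by_cases h0 : (fun i => r' (f i)) = 0
    · rw [h0, zero_dotProduct]
      have := ht _ (symR' _ hr)
      rw [neg_dotProduct] at this
      linarith
    · exact ht _ ((memR' _).2 ⟨h0, r', hr', rfl⟩)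
  refine ⟨R', ⟨symR', ?_, ?_, ?_⟩, (card_le_card (erase_subset _ _)).trans card_image_le⟩
  · intro h
    exact ((memR' 0).1 h).1 rfl
  · intro x hx
    obtain ⟨r, hr, h1⟩ := hR.pos (E x) (E0 x hx)
    rw [dot] at h1
    refine ⟨_, (memR' _).2 ⟨?_, r, hr, rfl⟩, h1⟩
    intro h0
    rw [h0, zero_dotProduct] at h1
    exact lt_irrefl _ h1
  · intro u hu v hv x y hx hy a1 a2 a3 a4
    obtain ⟨-, r, hr, e1⟩ := (memR' u).1 hu
    obtain ⟨-, s, hs, e2⟩ := (memR' v).1 hv
    subst e1
    subst e2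
    refine hR.ns r hr s hs (E x) (E y) (E0 x hx) (E0 y hy) (top r hu x a1) (top s hv x a2)
      (top r hu y a3) ?_
    exact top (-s) (symR' _ hv) y a4

section Tournament

variable {J : Type} [Fintype J] [DecidableEq J] {k : ℕ}

/-- The functional which is `t` times `r` on block `i` plus `h j` on block `j`. -/
def wfun (t : ℝ) (i : J) (r : Fin k → ℝ) (h : J → Fin k → ℝ) : J × Fin k → ℝ :=
  fun p => (if p.1 = i then t * r p.2 else 0) + h p.1 p.2

/-- The block with index `j` of a vector. -/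
def blk (x : J × Fin k → ℝ) (j : J) : Fin k → ℝ := fun c => x (j, c)

theorem wfun_dot (t : ℝ) (i : J) (r : Fin k → ℝ) (h : J → Fin k → ℝ) (x : J × Fin k → ℝ) :
    wfun t i r h ⬝ᵥ x = t * (r ⬝ᵥ blk x i) + ∑ j, h j ⬝ᵥ blk x j := by
  simp only [dotProduct, wfun, blk, Fintype.sum_prod_type, add_mul, sum_add_distrib]
  congr 1
  rw [Finset.sum_eq_single i]
  · simp [mul_sum, mul_assoc]
  · intro j _ hj
    simp [hj]
  · intro h'
    exact absurd (mem_univ i) h'

omit [Fintype J] in
theorem wfun_neg (t : ℝ) (i : J) (r : Fin k → ℝ) (h : J → Fin k → ℝ) :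
    -(wfun t i r h) = wfun t i (-r) (-h) := by
  ext p
  simp only [wfun, Pi.neg_apply]
  split_ifs <;> ring

theorem NSet.tournament {S H : Finset (Fin k → ℝ)} (T : Triple S H) (N : J → Finset J) (n : ℕ)
    (hirr : ∀ i, i ∉ N i) (htour : ∀ i j, i ≠ j → j ∈ N i ∨ i ∈ N j)
    (hcard : ∀ i, (N i).card = n) :
    ∃ R : Finset (J × Fin k → ℝ), NSet R ∧ R.card ≤ Fintype.card J * (S.card * H.card ^ n) := by
  classical
  obtain ⟨t, hnt⟩ : ∃ t : ℝ, (n : ℝ) < t := ⟨n + 1, by linarith⟩
  have ht0 : 0 < t := lt_of_le_of_lt (Nat.cast_nonneg n) hnt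
  let D : J → Finset (J → Fin k → ℝ) := fun i =>
    Fintype.piFinset (fun j => if j ∈ N i then H else {0})
  have memD : ∀ i h, h ∈ D i ↔ (∀ j ∈ N i, h j ∈ H) ∧ ∀ j, j ∉ N i → h j = 0 := by
    intro i h
    simp only [D, Fintype.mem_piFinset]
    constructor
    · intro hh
      refine ⟨fun j hj => ?_, fun j hj => ?_⟩
      · have := hh j; rwa [if_pos hj] at this
      · have := hh j; rw [if_neg hj] at this; exact mem_singleton.1 this
    · rintro ⟨h1, h2⟩ j
      by_cases hj : j ∈ N i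
      · rw [if_pos hj]; exact h1 j hj
      · rw [if_neg hj]; exact mem_singleton.2 (h2 j hj)
  let R : Finset (J × Fin k → ℝ) :=
    univ.biUnion (fun i => (S ×ˢ D i).image (fun q => wfun t i q.1 q.2))
  have memR : ∀ w, w ∈ R ↔ ∃ i, ∃ r ∈ S, ∃ h ∈ D i, wfun t i r h = w := by
    intro w
    simp only [R, mem_biUnion, mem_univ, true_and, mem_image, mem_product, Prod.exists]
    constructor
    · rintro ⟨i, r, h, ⟨h1, h2⟩, h3⟩; exact ⟨i, r, h1, h, h2, h3⟩
    · rintro ⟨i, r, h1, h, h2, h3⟩; exact ⟨i, r, h, ⟨h1, h2⟩, h3⟩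
  have negD : ∀ i h, h ∈ D i → -h ∈ D i := by
    intro i h hh
    obtain ⟨h1, h2⟩ := (memD i h).1 hh
    exact (memD i _).2 ⟨fun j hj => T.symH _ (h1 j hj), fun j hj => by
      rw [Pi.neg_apply, h2 j hj, neg_zero]⟩
  have symR : ∀ w ∈ R, -w ∈ R := by
    intro w hw
    obtain ⟨i, r, hr, h, hh, rfl⟩ := (memR w).1 hw
    exact (memR _).2 ⟨i, -r, T.nset.sym r hr, -h, negD i h hh, by rw [wfun_neg]⟩
  have blk_ne : ∀ x : J × Fin k → ℝ, x ≠ 0 → ∃ j, blk x j ≠ 0 := by
    intro x hx
    by_contra hc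
    push Not at hc
    apply hx
    ext p
    exact congrFun (hc p.1) p.2
  -- a choice with nonnegative values on the seen blocks
  have good : ∀ (i : J) (x : J × Fin k → ℝ), ∃ h ∈ D i, ∀ j, 0 ≤ h j ⬝ᵥ blk x j := by
    intro i x
    choose g hg1 hg2 using fun j => exists_nonneg H T.neH T.symH (blk x j)
    refine ⟨fun j => if j ∈ N i then g j else 0, (memD i _).2 ⟨fun j hj => ?_, fun j hj => ?_⟩,
      fun j => ?_⟩
    · simp only [if_pos hj]; exact hg1 j
    · simp only [if_neg hj]
    · by_cases hj : j ∈ N i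
      · simp only [if_pos hj]; exact hg2 j
      · simp only [if_neg hj, zero_dotProduct]; exact le_rfl
  have topW : ∀ (i : J) (r : Fin k → ℝ) (h : J → Fin k → ℝ), r ∈ S → h ∈ D i →
      ∀ x : J × Fin k → ℝ, x ≠ 0 → Top R (wfun t i r h) x →
      Top S r (blk x i) ∧ (∀ j ∈ N i, Top H (h j) (blk x j)) ∧ blk x i ≠ 0 := by
    intro i r h hr hh x hx htop
    refine ⟨?_, ?_, ?_⟩
    · intro r' hr'
      have := htop _ ((memR _).2 ⟨i, r', hr', h, hh, rfl⟩)
      rw [wfun_dot, wfun_dot] at this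
      have h2 : t * (r' ⬝ᵥ blk x i) ≤ t * (r ⬝ᵥ blk x i) := by linarith
      exact le_of_mul_le_mul_left h2 ht0
    · intro j hj h' hh'
      have hm : Function.update h j h' ∈ D i := by
        obtain ⟨h1, h2⟩ := (memD i h).1 hh
        refine (memD i _).2 ⟨fun l hl => ?_, fun l hl => ?_⟩
        · by_cases hlj : l = j
          · subst hlj; simpa using hh'
          · rw [Function.update_of_ne hlj]; exact h1 l hl
        · by_cases hlj : l = j
          · subst hlj; exact absurd hj hl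
          · rw [Function.update_of_ne hlj]; exact h2 l hl
      have := htop _ ((memR _).2 ⟨i, r, hr, _, hm, rfl⟩)
      rw [wfun_dot, wfun_dot] at this
      rw [← Finset.add_sum_erase _ _ (mem_univ j), ← Finset.add_sum_erase _ _ (mem_univ j)] at this
      have h3 : ∑ l ∈ univ.erase j, Function.update h j h' l ⬝ᵥ blk x l =
          ∑ l ∈ univ.erase j, h l ⬝ᵥ blk x l := by
        refine sum_congr rfl fun l hl => ?_
        rw [Function.update_of_ne (ne_of_mem_erase hl)]
      rw [h3, Function.update_self] at this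
      linarith
    · intro h0
      -- the largest value of `S` on a block
      obtain ⟨j0, hj0⟩ := blk_ne x hx
      have hSne : S.Nonempty := by
        obtain ⟨r, hr, -⟩ := T.nset.pos _ hj0
        exact ⟨r, hr⟩
      obtain ⟨q, hq, hmax⟩ := ((univ : Finset J) ×ˢ S).exists_max_image
        (fun q => q.2 ⬝ᵥ blk x q.1) ⟨(i, hSne.choose), mem_product.2 ⟨mem_univ _, hSne.choose_spec⟩⟩
      obtain ⟨js, rs⟩ := q
      have hrs : rs ∈ S := (mem_product.1 hq).2
      have hpos : 0 < rs ⬝ᵥ blk x js := by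
        obtain ⟨r1, hr1, h1⟩ := T.nset.pos _ hj0
        exact lt_of_lt_of_le h1 (hmax (j0, r1) (mem_product.2 ⟨mem_univ _, hr1⟩))
      obtain ⟨hs, hhs, hnn⟩ := good js x
      have h1 := htop _ ((memR _).2 ⟨js, rs, hrs, hs, hhs, rfl⟩)
      rw [wfun_dot, wfun_dot, h0, dotProduct_zero, mul_zero, zero_add] at h1
      have h2 : 0 ≤ ∑ j, hs j ⬝ᵥ blk x j := sum_nonneg fun j _ => hnn j
      have h3 : ∑ j, h j ⬝ᵥ blk x j ≤ n * (rs ⬝ᵥ blk x js) := by
        have h4 : ∑ j, h j ⬝ᵥ blk x j = ∑ j ∈ N i, h j ⬝ᵥ blk x j := by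
          symm
          apply sum_subset (subset_univ _)
          intro j _ hj
          rw [((memD i h).1 hh).2 j hj, zero_dotProduct]
        rw [h4, ← hcard i, ← nsmul_eq_mul]
        apply sum_le_card_nsmul
        intro j hj
        by_cases hz : blk x j = 0
        · rw [hz, dotProduct_zero]; exact hpos.le
        · obtain ⟨r1, hr1, h5⟩ := T.dom _ hz (h j) (((memD i h).1 hh).1 j hj)
          exact h5.trans (hmax (j, r1) (mem_product.2 ⟨mem_univ _, hr1⟩))
      have h6 : t * (rs ⬝ᵥ blk x js) ≤ n * (rs ⬝ᵥ blk x js) := by linarith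
      have h7 := mul_lt_mul_of_pos_right hnt hpos
      linarith
  refine ⟨R, ⟨symR, ?_, ?_, ?_⟩, ?_⟩
  · intro h0
    obtain ⟨i, r, hr, h, hh, e⟩ := (memR 0).1 h0
    apply T.nset.zero
    have : r = 0 := by
      ext c
      have h1 := congrFun e (i, c)
      simp only [wfun, if_true, Pi.zero_apply] at h1
      rw [((memD i h).1 hh).2 i (hirr i)] at h1
      simp only [Pi.zero_apply, add_zero, mul_eq_zero] at h1
      rcases h1 with h1 | h1
      · exact absurd h1 ht0.ne'
      · exact h1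
    rwa [this] at hr
  · intro x hx
    obtain ⟨j, hj⟩ := blk_ne x hx
    obtain ⟨r, hr, hpos⟩ := T.nset.pos _ hj
    obtain ⟨h, hh, hnn⟩ := good j x
    refine ⟨_, (memR _).2 ⟨j, r, hr, h, hh, rfl⟩, ?_⟩
    rw [wfun_dot]
    have h2 : 0 ≤ ∑ l, h l ⬝ᵥ blk x l := sum_nonneg fun l _ => hnn l
    have h3 := mul_pos ht0 hpos
    linarith
  · intro u hu v hv x y hx hy a1 a2 a3 a4
    obtain ⟨i, r, hr, h, hh, rfl⟩ := (memR u).1 hu
    obtain ⟨j, s, hs, g, hg, rfl⟩ := (memR v).1 hv
    rw [wfun_neg] at a4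
    obtain ⟨b1, b2, b3⟩ := topW i r h hr hh x hx a1
    obtain ⟨c1, c2, c3⟩ := topW j s g hs hg x hx a2
    obtain ⟨d1, d2, d3⟩ := topW i r h hr hh y hy a3
    obtain ⟨e1, e2, e3⟩ := topW j (-s) (-g) (T.nset.sym s hs) (negD j g hg) y hy a4
    by_cases hij : i = j
    · subst hij
      exact T.nset.ns r hr s hs _ _ b3 d3 b1 c1 d1 e1
    · rcases htour i j hij with hm | hm
      · have f1 : Top S s (-(blk y j)) := by simpa using e1.neg T.nset.sym
        have f2 := T.compat s hs (h j) (((memD i h).1 hh).1 j hm) (blk x j) (-(blk y j)) c1 f1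
          (b2 j hm) (by simpa using d2 j hm)
        rcases f2 with f2 | f2
        · exact c3 f2
        · exact e3 (neg_eq_zero.1 f2)
      · have f1 : Top H (g i) (-(blk y i)) := by simpa using (e2 i hm).neg T.symH
        have f2 := T.compat r hr (g i) (((memD j g).1 hg).1 i hm) (blk x i) (blk y i) b1 d1
          (c2 i hm) f1
        rcases f2 with f2 | f2
        · exact b3 f2
        · exact d3 f2
  · calc R.card ≤ ∑ i : J, ((S ×ˢ D i).image (fun q => wfun t i q.1 q.2)).card :=
          card_biUnion_le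
      _ ≤ ∑ i : J, S.card * H.card ^ n := by
          refine sum_le_sum fun i _ => ?_
          refine card_image_le.trans ?_
          rw [card_product, Fintype.card_piFinset]
          refine Nat.mul_le_mul_left _ (le_of_eq ?_)
          have h1 : ∀ j : J, (if j ∈ N i then H else {0}).card = if j ∈ N i then H.card else 1 := by
            intro j
            split_ifs
            · rfl
            · simp
          simp only [h1]
          rw [Finset.prod_ite]
          simp [hcard i]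
      _ = Fintype.card J * (S.card * H.card ^ n) := by
          rw [sum_const, card_univ, smul_eq_mul]

end Tournament

end Pool.Agent.CsPoly
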