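import Mathlib
import Pool.Agent.CsPoly.Table
import Pool.Agent.CsPoly.Tour
import Pool.Agent.CsPoly.Poly

/-! The bound for all dimensions. -/

namespace Pool.Agent.CsPoly

open Finset

theorem big_pairs : ∀ k : ℕ, 21 ≤ k → ∃ A B : ℕ, HasPair k A B ∧
    ((32 * A * B ^ 3 : ℕ) : ℝ) ≤ (2 : ℝ) ^ √(80 * ((k : ℝ) - 1)) := by
  intro k
  induction k using Nat.strong_induction_on with
  | _ k ih =>
    intro hk
    by_cases h80 : k ≤ 80
    · exact big_table k hk h80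
    push Not at h80
    obtain ⟨A, B, hp, hb⟩ := ih ((k + 3) / 4) (by omega) (by omega)
    refine ⟨(A + A) * (A + A), B * B + B * B, ((hp.add hp).mul (hp.add hp)).le (by omega), ?_⟩
    have e1 : 32 * ((A + A) * (A + A)) * (B * B + B * B) ^ 3 = (32 * A * B ^ 3) ^ 2 := by ring
    rw [e1]
    push_cast at hb ⊢
    have h0 : (0 : ℝ) ≤ 32 * A * B ^ 3 := by positivity
    refine (pow_le_pow_left₀ h0 hb 2).trans ?_
    rw [← Real.rpow_natCast, ← Real.rpow_mul (by norm_num)]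
    apply Real.rpow_le_rpow_of_exponent_le (by norm_num)
    have h1 : (((k + 3) / 4 : ℕ) : ℝ) * 4 ≤ k + 3 := by
      have : (k + 3) / 4 * 4 ≤ k + 3 := Nat.div_mul_le_self _ _
      exact_mod_cast this
    have h2 : (0 : ℝ) ≤ (((k + 3) / 4 : ℕ) : ℝ) - 1 := by
      have : 1 ≤ (k + 3) / 4 := by omega
      have h3 : (1 : ℝ) ≤ (((k + 3) / 4 : ℕ) : ℝ) := by exact_mod_cast this
      linarith
    apply Real.le_sqrt_of_sq_le
    rw [mul_pow, Real.sq_sqrt (by linarith)]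
    push_cast
    linarith

/-- The out-neighbours of `i` in the rotational tournament on five points. -/
def nb (i : Fin 5) : Finset (Fin 5) := {i + 1, i + 2}

theorem tour5 {k A B d : ℕ} (h : HasPair k A B) (hd : 1 ≤ d) (hdk : d ≤ 5 * k) :
    ∃ P : Set (Fin d → ℝ), IsCsSimplicialPolytope d P ∧ ¬ HasCsFourCycle P ∧
      2 * (P.extremePoints ℝ).ncard ≤ 5 * A * B ^ 3 := by
  obtain ⟨S, H, T, h1, h2⟩ := h.exists_triple
  obtain ⟨R, hR, hc⟩ := NSet.tournament T nb 2 (by decide) (by decide) (by decide)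
  obtain ⟨f⟩ := Function.Embedding.nonempty_of_card_le
    (α := Fin d) (β := Fin 5 × Fin k) (by simpa using hdk)
  obtain ⟨R', hR', hc'⟩ := hR.pullback f
  obtain ⟨P, p1, p2, p3⟩ := hR'.exists_polytope hd
  refine ⟨P, p1, p2, ?_⟩
  rw [Fintype.card_fin] at hc
  calc 2 * (P.extremePoints ℝ).ncard ≤ 2 * (5 * (S.card * H.card ^ 2)) := by omega
    _ = 5 * (2 * S.card) * H.card ^ 2 := by ring
    _ ≤ 5 * (A * B) * B ^ 2 := by gcongr
    _ = 5 * A * B ^ 3 := by ring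

theorem main_bound (d : ℕ) (hd : 1 ≤ d) :
    ∃ P : Set (Fin d → ℝ), IsCsSimplicialPolytope d P ∧ ¬ HasCsFourCycle P ∧
      ((P.extremePoints ℝ).ncard : ℝ) ≤ (2 : ℝ) ^ (4 * √(d : ℝ)) := by
  have e4 : 4 * √(d : ℝ) = √(16 * (d : ℝ)) := by
    rw [Real.sqrt_mul (by norm_num), show (16 : ℝ) = 4 ^ 2 by norm_num,
      Real.sqrt_sq (by norm_num)]
  rw [e4]
  rcases Nat.lt_or_ge 1 d with h1 | h1
  · obtain ⟨k, hk⟩ : ∃ k, k = (d + 4) / 5 := ⟨_, rfl⟩
    have k1 : 1 ≤ k := by omega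
    have k2 : d ≤ 5 * k := by omega
    have k3 : 5 * k ≤ d + 4 := by omega
    have k3' : 5 * (k : ℝ) ≤ d + 4 := by exact_mod_cast k3
    by_cases h20 : k ≤ 20
    · obtain ⟨A, B, hp, hb⟩ := small_pairs k k1 h20
      obtain ⟨P, p1, p2, p3⟩ := tour5 hp hd k2
      refine ⟨P, p1, p2, ?_⟩
      have h3 : (2 : ℝ) * ((P.extremePoints ℝ).ncard : ℝ) ≤ ((5 * A * B ^ 3 : ℕ) : ℝ) := by
        exact_mod_cast p3
      have h4 : (2 : ℝ) ^ √(16 * (if k = 1 then 2 else 5 * (k : ℝ) - 4)) ≤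
          (2 : ℝ) ^ √(16 * (d : ℝ)) := by
        apply Real.rpow_le_rpow_of_exponent_le (by norm_num)
        apply Real.sqrt_le_sqrt
        split_ifs with hk1
        · have : (2 : ℝ) ≤ d := by exact_mod_cast h1
          linarith
        · linarith
      linarith
    · push Not at h20
      obtain ⟨A, B, hp, hb⟩ := big_pairs k h20
      obtain ⟨P, p1, p2, p3⟩ := tour5 hp hd k2
      refine ⟨P, p1, p2, ?_⟩
      have h3 : (2 : ℝ) * ((P.extremePoints ℝ).ncard : ℝ) ≤ ((5 * A * B ^ 3 : ℕ) : ℝ) := by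
        exact_mod_cast p3
      have h4 : (2 : ℝ) ^ √(80 * ((k : ℝ) - 1)) ≤ (2 : ℝ) ^ √(16 * (d : ℝ)) := by
        apply Real.rpow_le_rpow_of_exponent_le (by norm_num)
        apply Real.sqrt_le_sqrt
        linarith
      have h5 : ((5 * A * B ^ 3 : ℕ) : ℝ) ≤ ((32 * A * B ^ 3 : ℕ) : ℝ) := by
        have : 5 * A * B ^ 3 ≤ 32 * A * B ^ 3 := by gcongr; norm_num
        exact_mod_cast this
      have h6 : (0 : ℝ) ≤ ((P.extremePoints ℝ).ncard : ℝ) := Nat.cast_nonneg _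
      linarith
  · have hd1 : d = 1 := by omega
    subst hd1
    obtain ⟨S, H, T, h1, -⟩ := hasPair_one.exists_triple
    obtain ⟨P, p1, p2, p3⟩ := T.nset.exists_polytope (le_refl 1)
    refine ⟨P, p1, p2, ?_⟩
    have h3 : (P.extremePoints ℝ).ncard ≤ 2 := by omega
    have h4 : ((P.extremePoints ℝ).ncard : ℝ) ≤ 2 := by exact_mod_cast h3
    refine h4.trans ?_
    have h5 : (2 : ℝ) ^ (1 : ℝ) ≤ (2 : ℝ) ^ √(16 * ((1 : ℕ) : ℝ)) := by
      apply Real.rpow_le_rpow_of_exponent_le (by norm_num)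
      apply Real.le_sqrt_of_sq_le
      norm_num
    simpa using h5

end Pool.Agent.CsPoly
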